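import Mathlib
import Pool.Agent.H47.Vin.L

/-!
# A vector valued Cotlar inequality for the discrete Hilbert transform on `l^4(Z)`
-/

namespace Pool.Agent.H40.Vin

open scoped BigOperators ComplexConjugate
open Pool.Agent.H47.Vin Filter

theorem hs_congr {α β : Type*} [AddCommMonoid α] [TopologicalSpace α] {f g : β → α} {a b : α}
    (h : HasSum f a) (hfg : ∀ x, g x = f x) (hab : b = a) : HasSum g b := by
  rw [hab, (funext hfg : g = f)]
  exact h

/-- the kernel `1 / n` (and `0` for `n = 0`) -/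
noncomputable def hk (n : ℤ) : ℝ := (n : ℝ)⁻¹

@[simp] theorem hk_zero : hk 0 = 0 := by simp [hk]

theorem hk_neg (n : ℤ) : hk (-n) = -hk n := by simp [hk, inv_neg]

theorem hk_sub_comm (a b : ℤ) : hk (a - b) = -hk (b - a) := by
  rw [← hk_neg, neg_sub]

theorem abs_hk_le (n : ℤ) : |hk n| ≤ 1 := by
  unfold hk
  rcases eq_or_ne n 0 with rfl | h
  · simp
  · rw [abs_inv]
    have : (1 : ℝ) ≤ |(n : ℝ)| := by
      rw [← Int.cast_abs]
      exact_mod_cast Int.one_le_abs h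
    exact inv_le_one_of_one_le₀ this

theorem hk_sq_nonneg (n : ℤ) : 0 ≤ hk n ^ 2 := sq_nonneg _

theorem hk_sq_le (n : ℤ) : hk n ^ 2 ≤ 1 := by
  have := abs_hk_le n
  rw [← sq_abs]
  exact pow_le_one₀ (abs_nonneg _) this

theorem hasSum_hk_sq : HasSum (fun n : ℤ => hk n ^ 2) (Real.pi ^ 2 / 3) := by
  have h0 : (fun n : ℕ => (1 : ℝ) / (n : ℝ) ^ 2) = fun n : ℕ => hk (n : ℤ) ^ 2 := by
    funext n
    simp [hk]
  have h1 : HasSum (fun n : ℕ => hk (n : ℤ) ^ 2) (Real.pi ^ 2 / 6) := by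
    rw [← h0]
    exact hasSum_zeta_two
  have h2 : HasSum (fun n : ℕ => hk (-(n : ℤ)) ^ 2) (Real.pi ^ 2 / 6) := by
    simpa [hk_neg] using h1
  have := HasSum.of_nat_of_neg (f := fun n : ℤ => hk n ^ 2) h1 h2
  simp only [hk_zero] at this
  have h3 : Real.pi ^ 2 / 6 + Real.pi ^ 2 / 6 - 0 ^ 2 = Real.pi ^ 2 / 3 := by ring
  rwa [h3] at this

theorem summable_hk_sq : Summable (fun n : ℤ => hk n ^ 2) := hasSum_hk_sq.summable

theorem summable_hk_mul (d e : ℤ) : Summable (fun n : ℤ => hk (n + d) * hk (n + e)) := by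
  have h1 : Summable (fun n : ℤ => hk (n + d) ^ 2) :=
    (Equiv.addRight d).summable_iff.2 summable_hk_sq
  have h2 : Summable (fun n : ℤ => hk (n + e) ^ 2) :=
    (Equiv.addRight e).summable_iff.2 summable_hk_sq
  refine Summable.of_norm_bounded (h1.add h2) fun n => ?_
  rw [Real.norm_eq_abs, abs_le]
  constructor <;> nlinarith [sq_nonneg (hk (n + d) + hk (n + e)), sq_nonneg (hk (n + d) - hk (n + e)),
    sq_nonneg (hk (n + d)), sq_nonneg (hk (n + e))]

theorem hk_mul_eq {d : ℤ} (hd : d ≠ 0) (n : ℤ) : hk n * hk (n + d)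
    = hk d * (hk n - hk (n + d)) + ((if n = 0 then hk d ^ 2 else 0)
      + if n = -d then hk d ^ 2 else 0) := by
  have hd' : (d : ℝ) ≠ 0 := by exact_mod_cast hd
  by_cases h0 : n = 0
  · subst h0
    have : ¬ (0 : ℤ) = -d := fun h => hd (by omega)
    simp [this]
    ring
  · by_cases h1 : n = -d
    · subst h1
      simp [hd, hk_neg]
      ring
    · have h2 : (n : ℝ) ≠ 0 := by exact_mod_cast h0
      have h3 : ((n : ℝ) + d) ≠ 0 := by
        have : n + d ≠ 0 := fun h => h1 (by omega)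
        exact_mod_cast this
      simp only [h0, h1, if_false, add_zero]
      unfold hk
      push_cast
      field_simp
      ring

theorem hasSum_tele : HasSum (fun n : ℤ => hk n - hk (n + 1)) 0 := by
  have hs : Summable (fun n : ℤ => hk n - hk (n + 1)) := by
    have h1 := (summable_hk_mul 0 1)
    simp only [add_zero] at h1
    have h2 : Summable (fun n : ℤ => ((if n = 0 then hk 1 ^ 2 else 0)
      + if n = -1 then hk 1 ^ 2 else 0)) :=
      ((hasSum_ite_eq (0 : ℤ) (hk 1 ^ 2)).add (hasSum_ite_eq (-1 : ℤ) (hk 1 ^ 2))).summable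
    refine (h1.sub h2).congr fun n => ?_
    rw [hk_mul_eq one_ne_zero n]
    simp [hk]
  have hlim : Tendsto (fun N : ℕ => hk (N : ℤ)) atTop (nhds 0) := by
    unfold hk
    simpa using tendsto_inv_atTop_nhds_zero_nat (𝕜 := ℝ)
  have hN : Summable (fun n : ℕ => hk (n : ℤ) - hk ((n : ℤ) + 1)) :=
    hs.comp_injective Nat.cast_injective
  have h1 : HasSum (fun n : ℕ => hk (n : ℤ) - hk ((n : ℤ) + 1)) 0 := by
    have h2 := hN.hasSum.tendsto_sum_nat
    have h3 : Tendsto (fun N : ℕ => ∑ n ∈ Finset.range N, (hk (n : ℤ) - hk ((n : ℤ) + 1))) atTop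
        (nhds 0) := by
      have : ∀ N : ℕ, ∑ n ∈ Finset.range N, (hk (n : ℤ) - hk ((n : ℤ) + 1)) = -hk (N : ℤ) := by
        intro N
        induction N with
        | zero => simp
        | succ N ih =>
            rw [Finset.sum_range_succ, ih]
            push_cast
            ring
      simp_rw [this]
      simpa using hlim.neg
    rw [← tendsto_nhds_unique h2 h3]
    exact hN.hasSum
  have h2 : HasSum (fun n : ℕ => hk (-((n : ℤ) + 1)) - hk (-((n : ℤ) + 1) + 1)) 0 := by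
    have : (fun n : ℕ => hk (-((n : ℤ) + 1)) - hk (-((n : ℤ) + 1) + 1))
        = fun n : ℕ => hk (n : ℤ) - hk ((n : ℤ) + 1) := by
      funext n
      rw [show -((n : ℤ) + 1) + 1 = -(n : ℤ) by ring, hk_neg, hk_neg]
      ring
    rw [this]
    exact h1
  have := HasSum.of_nat_of_neg_add_one (f := fun n : ℤ => hk n - hk (n + 1)) h1 h2
  simpa using this

theorem hasSum_tele' (d : ℕ) : HasSum (fun n : ℤ => hk n - hk (n + d)) 0 := by
  induction d with
  | zero => simp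
  | succ d ih =>
      have h := (Equiv.addRight (d : ℤ)).hasSum_iff.2 hasSum_tele
      have h2 := ih.add h
      simp only [add_zero] at h2
      refine hs_congr h2 (fun n => ?_) rfl
      simp only [Function.comp_apply, Equiv.coe_addRight]
      push_cast
      rw [add_assoc]
      ring

/-- `∑ₙ h(n) h(n + d)` -/
noncomputable def kp (d : ℤ) : ℝ := if d = 0 then Real.pi ^ 2 / 3 else 2 * hk d ^ 2

theorem kp_nonneg (d : ℤ) : 0 ≤ kp d := by
  unfold kp
  split_ifs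
  · positivity
  · positivity

theorem kp_neg (d : ℤ) : kp (-d) = kp d := by
  unfold kp
  simp [hk_neg]

theorem hasSum_kp_nat (d : ℕ) : HasSum (fun n : ℤ => hk n * hk (n + d)) (kp d) := by
  rcases Nat.eq_zero_or_pos d with rfl | hd
  · have : (fun n : ℤ => hk n * hk (n + (0 : ℕ))) = fun n => hk n ^ 2 := by
      funext n
      simp [sq]
    rw [this]
    simpa [kp] using hasSum_hk_sq
  · have hd' : (d : ℤ) ≠ 0 := by omega
    have h1 := ((hasSum_tele' d).mul_left (hk d)).add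
      ((hasSum_ite_eq (0 : ℤ) (hk d ^ 2)).add (hasSum_ite_eq (-(d : ℤ)) (hk d ^ 2)))
    refine hs_congr h1 (fun n => ?_) ?_
    · rw [hk_mul_eq hd' n]
    · simp only [kp, hd', if_false]
      ring

theorem hasSum_kp (d : ℤ) : HasSum (fun n : ℤ => hk n * hk (n + d)) (kp d) := by
  rcases le_total 0 d with h | h
  · obtain ⟨e, rfl⟩ := Int.eq_ofNat_of_zero_le h
    exact hasSum_kp_nat e
  · obtain ⟨e, he⟩ := Int.eq_ofNat_of_zero_le (neg_nonneg.2 h)
    obtain rfl : d = -(e : ℤ) := by omega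
    have h1 := (Equiv.addRight (-(e : ℤ))).hasSum_iff.2 (hasSum_kp_nat e)
    refine hs_congr h1 (fun n => ?_) (kp_neg e)
    simp only [Function.comp_apply, Equiv.coe_addRight]
    rw [neg_add_cancel_right, mul_comm]

theorem hasSum_kp' (a b : ℤ) : HasSum (fun n : ℤ => hk (n - a) * hk (n - b)) (kp (a - b)) := by
  have h1 := (Equiv.subRight a).hasSum_iff.2 (hasSum_kp (a - b))
  refine hs_congr h1 (fun n => ?_) rfl
  simp only [Function.comp_apply, Equiv.subRight_apply]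
  rw [sub_add_sub_cancel]

theorem hasSum_kp_total : HasSum kp (Real.pi ^ 2) := by
  have h1 := (hasSum_hk_sq.mul_left 2).add (hasSum_ite_eq (0 : ℤ) (Real.pi ^ 2 / 3))
  refine hs_congr h1 (fun n => ?_) (by ring)
  unfold kp
  split_ifs with h
  · subst h
    simp
  · ring

theorem sum_kp_le (a : ℤ) (s : Finset ℤ) : ∑ b ∈ s, kp (a - b) ≤ Real.pi ^ 2 := by
  have h1 := (Equiv.subLeft a).hasSum_iff.2 hasSum_kp_total
  exact sum_le_hasSum s (fun i _ => kp_nonneg _) h1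

/-- the `ℓ²` bound for finite sums -/
theorem fin_bound (s : Finset ℤ) (F : ℤ → ℂ) :
    ∃ V : ℝ, HasSum (fun n : ℤ => ‖∑ a ∈ s, F a * (hk (n - a) : ℂ)‖ ^ 2) V ∧
      V ≤ Real.pi ^ 2 * ∑ a ∈ s, ‖F a‖ ^ 2 := by
  have h1 : ∀ a ∈ s, ∀ b ∈ s, HasSum (fun n : ℤ => F a * conj (F b) *
      ((hk (n - a) * hk (n - b) : ℝ) : ℂ)) (F a * conj (F b) * (kp (a - b) : ℂ)) := by
    intro a _ b _
    have := Complex.hasSum_ofReal.2 (hasSum_kp' a b)
    exact this.mul_left _
  have h2 : HasSum (fun n : ℤ => ∑ a ∈ s, ∑ b ∈ s, F a * conj (F b) *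
      ((hk (n - a) * hk (n - b) : ℝ) : ℂ)) (∑ a ∈ s, ∑ b ∈ s, F a * conj (F b) * (kp (a - b) : ℂ)) :=
    hasSum_sum fun a ha => hasSum_sum fun b hb => h1 a ha b hb
  have h3 : ∀ n : ℤ, ((‖∑ a ∈ s, F a * (hk (n - a) : ℂ)‖ ^ 2 : ℝ) : ℂ) = ∑ a ∈ s, ∑ b ∈ s,
      F a * conj (F b) * ((hk (n - a) * hk (n - b) : ℝ) : ℂ) := by
    intro n
    push_cast
    rw [← Complex.mul_conj', map_sum, Finset.sum_mul_sum]
    refine Finset.sum_congr rfl fun a _ => Finset.sum_congr rfl fun b _ => ?_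
    rw [map_mul, Complex.conj_ofReal]
    ring
  have h4 := (hs_congr h2 h3 rfl).mapL Complex.reCLM
  simp only [Complex.reCLM_apply, Complex.ofReal_re] at h4
  refine ⟨_, h4, ?_⟩
  refine (Complex.re_le_norm _).trans ?_
  calc ‖∑ a ∈ s, ∑ b ∈ s, F a * conj (F b) * (kp (a - b) : ℂ)‖
      ≤ ∑ a ∈ s, ∑ b ∈ s, ‖F a‖ * ‖F b‖ * kp (a - b) := by
        refine (norm_sum_le _ _).trans (Finset.sum_le_sum fun a _ => ?_)
        refine (norm_sum_le _ _).trans (Finset.sum_le_sum fun b _ => ?_)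
        rw [norm_mul, norm_mul, RCLike.norm_conj, Complex.norm_real, Real.norm_eq_abs,
          abs_of_nonneg (kp_nonneg _)]
    _ ≤ ∑ a ∈ s, ∑ b ∈ s, (‖F a‖ ^ 2 / 2 * kp (a - b) + ‖F b‖ ^ 2 / 2 * kp (a - b)) := by
        refine Finset.sum_le_sum fun a _ => Finset.sum_le_sum fun b _ => ?_
        rw [← add_mul]
        refine mul_le_mul_of_nonneg_right ?_ (kp_nonneg _)
        nlinarith [sq_nonneg (‖F a‖ - ‖F b‖)]
    _ = ∑ a ∈ s, ‖F a‖ ^ 2 / 2 * ∑ b ∈ s, kp (a - b) + ∑ b ∈ s, ‖F b‖ ^ 2 / 2 * ∑ a ∈ s, kp (b - a) := by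
        simp_rw [Finset.sum_add_distrib, Finset.mul_sum]
        congr 1
        rw [Finset.sum_comm]
        refine Finset.sum_congr rfl fun b _ => Finset.sum_congr rfl fun a _ => ?_
        rw [← kp_neg (a - b), neg_sub]
    _ ≤ ∑ a ∈ s, ‖F a‖ ^ 2 / 2 * Real.pi ^ 2 + ∑ b ∈ s, ‖F b‖ ^ 2 / 2 * Real.pi ^ 2 := by
        refine add_le_add ?_ ?_ <;> refine Finset.sum_le_sum fun a _ =>
          mul_le_mul_of_nonneg_left (sum_kp_le a s) (by positivity)
    _ = Real.pi ^ 2 * ∑ a ∈ s, ‖F a‖ ^ 2 := by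
        rw [← Finset.sum_mul, ← Finset.sum_div]
        ring

/-- the discrete Hilbert transform of an element of `W` -/
noncomputable def HT (f : W) (n : ℤ) : ℂ := ∑' m, co f m * (hk (n - m) : ℂ)

/-- convolution with `1 / n ^ 2` -/
noncomputable def KT (f : W) (n : ℤ) : ℂ := ∑' m, co f m * ((hk (n - m) ^ 2 : ℝ) : ℂ)

theorem norm_hk_le (n : ℤ) : ‖(hk n : ℂ)‖ ≤ 1 := by
  rw [Complex.norm_real]
  exact abs_hk_le n

theorem norm_hk_sq_le (n : ℤ) : ‖((hk n ^ 2 : ℝ) : ℂ)‖ ≤ 1 := by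
  rw [Complex.norm_real, Real.norm_eq_abs, abs_of_nonneg (hk_sq_nonneg n)]
  exact hk_sq_le n

/-- sums of an absolutely summable sequence against a bounded one -/
theorem summable_bdd (f : W) {u : ℤ → ℂ} {C : ℝ} (hu : ∀ n, ‖u n‖ ≤ C) :
    Summable (fun m => ‖co f m * u m‖) := by
  refine Summable.of_nonneg_of_le (fun n => norm_nonneg _) (fun n => ?_)
    ((summable_co f).mul_right C)
  rw [norm_mul]
  exact mul_le_mul_of_nonneg_left (hu n) (norm_nonneg _)

theorem norm_tsum_bdd (f : W) {u : ℤ → ℂ} {C : ℝ} (hu : ∀ n, ‖u n‖ ≤ C) :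
    ‖∑' m, co f m * u m‖ ≤ ‖f‖ * C := by
  refine (norm_tsum_le_tsum_norm (summable_bdd f hu)).trans ?_
  rw [norm_eq, ← tsum_mul_right]
  refine Summable.tsum_le_tsum (fun n => ?_) (summable_bdd f hu) ((summable_co f).mul_right C)
  rw [norm_mul]
  exact mul_le_mul_of_nonneg_left (hu n) (norm_nonneg _)

theorem hasSum_HT (f : W) (n : ℤ) : HasSum (fun m => co f m * (hk (n - m) : ℂ)) (HT f n) :=
  (summable_bdd f (fun m => norm_hk_le (n - m))).of_norm.hasSum

theorem hasSum_KT (f : W) (n : ℤ) :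
    HasSum (fun m => co f m * ((hk (n - m) ^ 2 : ℝ) : ℂ)) (KT f n) :=
  (summable_bdd f (fun m => norm_hk_sq_le (n - m))).of_norm.hasSum

theorem norm_HT_le (f : W) (n : ℤ) : ‖HT f n‖ ≤ ‖f‖ :=
  (norm_tsum_bdd f (fun m => norm_hk_le (n - m))).trans_eq (mul_one _)

theorem norm_KT_le (f : W) (n : ℤ) : ‖KT f n‖ ≤ ‖f‖ :=
  (norm_tsum_bdd f (fun m => norm_hk_sq_le (n - m))).trans_eq (mul_one _)

theorem summable_co_sq (f : W) : Summable (fun n => ‖co f n‖ ^ 2) := by
  refine Summable.of_nonneg_of_le (fun n => by positivity) (fun n => ?_)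
    ((summable_co f).mul_right ‖f‖)
  rw [sq]
  exact mul_le_mul_of_nonneg_left (norm_co_le f n) (norm_nonneg _)

theorem HT_sum_le (f : W) (S : Finset ℤ) :
    ∑ n ∈ S, ‖HT f n‖ ^ 2 ≤ Real.pi ^ 2 * ∑' n, ‖co f n‖ ^ 2 := by
  have h1 : Tendsto (fun s : Finset ℤ => ∑ n ∈ S, ‖∑ a ∈ s, co f a * (hk (n - a) : ℂ)‖ ^ 2) atTop
      (nhds (∑ n ∈ S, ‖HT f n‖ ^ 2)) :=
    tendsto_finsetSum _ fun n _ => ((hasSum_HT f n).norm.pow 2)
  refine le_of_tendsto' h1 fun s => ?_
  obtain ⟨V, hV, hV2⟩ := fin_bound s (co f)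
  refine (sum_le_hasSum S (fun i _ => by positivity) hV).trans (hV2.trans ?_)
  exact mul_le_mul_of_nonneg_left ((summable_co_sq f).sum_le_tsum s fun i _ => by positivity)
    (by positivity)

theorem summable_HT_sq (f : W) : Summable (fun n => ‖HT f n‖ ^ 2) :=
  summable_of_sum_le (fun n => by positivity) (HT_sum_le f)

theorem tsum_HT_sq_le (f : W) :
    ∑' n, ‖HT f n‖ ^ 2 ≤ Real.pi ^ 2 * ∑' n, ‖co f n‖ ^ 2 :=
  (summable_HT_sq f).tsum_le_of_sum_le (HT_sum_le f)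

/-- the double sum with a bounded kernel -/
noncomputable def DS (f g : W) (κ : ℤ × ℤ → ℂ) : ℂ := ∑' p : ℤ × ℤ, co f p.1 * co g p.2 * κ p

theorem summable_DS (f g : W) {κ : ℤ × ℤ → ℂ} {C : ℝ} (hκ : ∀ p, ‖κ p‖ ≤ C) :
    Summable (fun p : ℤ × ℤ => co f p.1 * co g p.2 * κ p) := by
  refine Summable.of_norm_bounded ((summable_pair f g).mul_right C) fun p => ?_
  rw [norm_mul]
  exact mul_le_mul_of_nonneg_left (hκ p) (norm_nonneg _)

theorem DS_fst (f g : W) {κ : ℤ × ℤ → ℂ} {C : ℝ} (hκ : ∀ p, ‖κ p‖ ≤ C) :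
    DS f g κ = ∑' a, co f a * ∑' b, co g b * κ (a, b) := by
  unfold DS
  rw [(summable_DS f g hκ).tsum_prod]
  refine tsum_congr fun a => ?_
  rw [← tsum_mul_left]
  exact tsum_congr fun b => mul_assoc _ _ _

theorem DS_swap (f g : W) (κ : ℤ × ℤ → ℂ) : DS f g κ = DS g f (fun p => κ (p.2, p.1)) := by
  unfold DS
  rw [← (Equiv.prodComm ℤ ℤ).tsum_eq]
  refine tsum_congr fun p => ?_
  simp only [Equiv.prodComm_apply, Prod.swap]
  ring

theorem DS_snd (f g : W) {κ : ℤ × ℤ → ℂ} {C : ℝ} (hκ : ∀ p, ‖κ p‖ ≤ C) :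
    DS f g κ = ∑' b, co g b * ∑' a, co f a * κ (a, b) := by
  rw [DS_swap, DS_fst g f (fun p => hκ (p.2, p.1))]

theorem DS_add (f g : W) {κ κ' : ℤ × ℤ → ℂ} {C C' : ℝ} (hκ : ∀ p, ‖κ p‖ ≤ C)
    (hκ' : ∀ p, ‖κ' p‖ ≤ C') : DS f g (fun p => κ p + κ' p) = DS f g κ + DS f g κ' := by
  unfold DS
  rw [← (summable_DS f g hκ).tsum_add (summable_DS f g hκ')]
  exact tsum_congr fun p => by ring

/-- pointwise multiplication of an element of `W` by a bounded sequence -/
noncomputable def pm (f : W) (u : ℤ → ℂ) {C : ℝ} (hu : ∀ n, ‖u n‖ ≤ C) : W :=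
  mkW (fun n => co f n * u n) (summable_bdd f hu)

theorem co_pm (f : W) (u : ℤ → ℂ) {C : ℝ} (hu : ∀ n, ‖u n‖ ≤ C) (n : ℤ) :
    co (pm f u hu) n = co f n * u n := rfl

theorem ker_id (x y : ℤ) : hk x * hk y = hk x * hk (y - x) + (hk y * hk (x - y)
    + ((if x = 0 then hk y ^ 2 else 0) + ((if y = 0 then hk x ^ 2 else 0)
      + if x = y then hk x ^ 2 else 0))) := by
  by_cases hx : x = 0
  · subst hx
    by_cases hy : y = 0
    · subst hy
      simp
    · have : ¬ (0 : ℤ) = y := fun h => hy h.symm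
      simp [hy, this, hk_neg]
      ring
  · by_cases hy : y = 0
    · subst hy
      simp [hx, hk_neg]
      ring
    · by_cases hxy : x = y
      · subst hxy
        simp [hx]
        ring
      · have h1 : (x : ℝ) ≠ 0 := by exact_mod_cast hx
        have h2 : (y : ℝ) ≠ 0 := by exact_mod_cast hy
        have h3 : (x : ℝ) - y ≠ 0 := by
          have : x - y ≠ 0 := sub_ne_zero.2 hxy
          exact_mod_cast this
        have h4 : (y : ℝ) - x ≠ 0 := by
          have : y - x ≠ 0 := sub_ne_zero.2 (Ne.symm hxy)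
          exact_mod_cast this
        simp only [hx, hy, hxy, if_false, add_zero]
        unfold hk
        push_cast
        field_simp
        ring

theorem ofReal_ite' (q : Prop) [Decidable q] (a : ℝ) :
    ((if q then a else 0 : ℝ) : ℂ) = if q then (a : ℂ) else 0 := by
  split_ifs <;> simp

theorem norm_mul_hk_le (a b : ℤ) : ‖(hk a : ℂ) * (hk b : ℂ)‖ ≤ 1 := by
  rw [norm_mul]
  exact mul_le_one₀ (norm_hk_le a) (norm_nonneg _) (norm_hk_le b)

theorem norm_ite_le {q : Prop} [Decidable q] (a : ℤ) :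
    ‖(if q then ((hk a ^ 2 : ℝ) : ℂ) else 0)‖ ≤ 1 := by
  split_ifs
  · exact norm_hk_sq_le a
  · simp

theorem cotlar_id (f g : W) (n : ℤ) : HT f n * HT g n =
    HT (pm f (HT g) (norm_HT_le g)) n + (HT (pm g (HT f) (norm_HT_le f)) n
      + (co f n * KT g n + (co g n * KT f n + KT (pm f (co g) (norm_co_le g)) n))) := by
  have e0 : HT f n * HT g n = DS f g (fun p => (hk (n - p.1) : ℂ) * (hk (n - p.2) : ℂ)) := by
    rw [DS_fst f g (fun p => norm_mul_hk_le _ _)]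
    show (∑' m, co f m * (hk (n - m) : ℂ)) * HT g n = _
    rw [← tsum_mul_right]
    refine tsum_congr fun a => ?_
    rw [mul_assoc]
    congr 1
    show (hk (n - a) : ℂ) * (∑' m, co g m * (hk (n - m) : ℂ)) = _
    rw [← tsum_mul_left]
    exact tsum_congr fun b => by ring
  have e1 : HT (pm f (HT g) (norm_HT_le g)) n
      = DS f g (fun p => (hk (n - p.1) : ℂ) * (hk (p.1 - p.2) : ℂ)) := by
    rw [DS_fst f g (fun p => norm_mul_hk_le _ _)]
    refine tsum_congr fun a => ?_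
    rw [co_pm, mul_assoc]
    congr 1
    show (∑' m, co g m * (hk (a - m) : ℂ)) * _ = _
    rw [← tsum_mul_right]
    exact tsum_congr fun b => by ring
  have e2 : HT (pm g (HT f) (norm_HT_le f)) n
      = DS f g (fun p => (hk (n - p.2) : ℂ) * (hk (p.2 - p.1) : ℂ)) := by
    rw [DS_snd f g (fun p => norm_mul_hk_le _ _)]
    refine tsum_congr fun a => ?_
    rw [co_pm, mul_assoc]
    congr 1
    show (∑' m, co f m * (hk (a - m) : ℂ)) * _ = _
    rw [← tsum_mul_right]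
    exact tsum_congr fun b => by ring
  have e3 : co f n * KT g n
      = DS f g (fun p => if n - p.1 = 0 then ((hk (n - p.2) ^ 2 : ℝ) : ℂ) else 0) := by
    rw [DS_fst f g (fun p => norm_ite_le _), tsum_eq_single n]
    · simp [KT]
    · intro b hb
      have : ¬ n - b = 0 := fun h => hb (by omega)
      simp [this]
  have e4 : co g n * KT f n
      = DS f g (fun p => if n - p.2 = 0 then ((hk (n - p.1) ^ 2 : ℝ) : ℂ) else 0) := by
    rw [DS_snd f g (fun p => norm_ite_le _), tsum_eq_single n]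
    · simp [KT]
    · intro b hb
      have : ¬ n - b = 0 := fun h => hb (by omega)
      simp [this]
  have e5 : KT (pm f (co g) (norm_co_le g)) n
      = DS f g (fun p => if n - p.1 = n - p.2 then ((hk (n - p.1) ^ 2 : ℝ) : ℂ) else 0) := by
    rw [DS_fst f g (fun p => norm_ite_le _)]
    refine tsum_congr fun a => ?_
    rw [co_pm, mul_assoc, tsum_eq_single a]
    · simp
    · intro b hb
      have : ¬ n - a = n - b := fun h => hb (by omega)
      simp [this]
  have b2 : ∀ p : ℤ × ℤ, ‖(if n - p.2 = 0 then ((hk (n - p.1) ^ 2 : ℝ) : ℂ) else 0)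
      + (if n - p.1 = n - p.2 then ((hk (n - p.1) ^ 2 : ℝ) : ℂ) else 0)‖ ≤ 1 + 1 := fun p =>
    (norm_add_le _ _).trans (add_le_add (norm_ite_le _) (norm_ite_le _))
  have b3 : ∀ p : ℤ × ℤ, ‖(if n - p.1 = 0 then ((hk (n - p.2) ^ 2 : ℝ) : ℂ) else 0)
      + ((if n - p.2 = 0 then ((hk (n - p.1) ^ 2 : ℝ) : ℂ) else 0)
      + (if n - p.1 = n - p.2 then ((hk (n - p.1) ^ 2 : ℝ) : ℂ) else 0))‖ ≤ 1 + (1 + 1) := fun p =>
    (norm_add_le _ _).trans (add_le_add (norm_ite_le _) (b2 p))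
  have b4 : ∀ p : ℤ × ℤ, ‖(hk (n - p.2) : ℂ) * (hk (p.2 - p.1) : ℂ)
      + ((if n - p.1 = 0 then ((hk (n - p.2) ^ 2 : ℝ) : ℂ) else 0)
      + ((if n - p.2 = 0 then ((hk (n - p.1) ^ 2 : ℝ) : ℂ) else 0)
      + (if n - p.1 = n - p.2 then ((hk (n - p.1) ^ 2 : ℝ) : ℂ) else 0)))‖ ≤ 1 + (1 + (1 + 1)) :=
    fun p => (norm_add_le _ _).trans (add_le_add (norm_mul_hk_le _ _) (b3 p))
  rw [e0, e1, e2, e3, e4, e5, ← DS_add f g (fun p => norm_ite_le _) (fun p => norm_ite_le _),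
    ← DS_add f g (fun p => norm_ite_le _) b2, ← DS_add f g (fun p => norm_mul_hk_le _ _) b3,
    ← DS_add f g (fun p => norm_mul_hk_le _ _) b4]
  refine tsum_congr fun p => ?_
  congr 1
  have := ker_id (n - p.1) (n - p.2)
  rw [show n - p.2 - (n - p.1) = p.1 - p.2 by ring, show n - p.1 - (n - p.2) = p.2 - p.1 by ring]
    at this
  have h2 := congrArg (fun x : ℝ => (x : ℂ)) this
  simp only [Complex.ofReal_add, Complex.ofReal_mul, ofReal_ite'] at h2
  exact h2

/-! ### linearity -/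

theorem HT_add (f g : W) (n : ℤ) : HT (f + g) n = HT f n + HT g n := by
  rw [← ((hasSum_HT f n).add (hasSum_HT g n)).tsum_eq]
  exact tsum_congr fun m => by rw [co_add]; ring

theorem HT_zero (n : ℤ) : HT 0 n = 0 := by
  unfold HT
  simp [co_zero]

theorem HT_sum {ι : Type*} (s : Finset ι) (f : ι → W) (n : ℤ) :
    HT (∑ k ∈ s, f k) n = ∑ k ∈ s, HT (f k) n := by
  classical
  induction s using Finset.induction_on with
  | empty => simp [HT_zero]
  | insert a t ha ih => rw [Finset.sum_insert ha, Finset.sum_insert ha, HT_add, ih]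

theorem HT_cj (f : W) (n : ℤ) : HT (cj f) n = conj (HT f n) := by
  unfold HT
  rw [Complex.conj_tsum]
  refine tsum_congr fun m => ?_
  rw [co_cj, map_mul, Complex.conj_ofReal]

/-- the kernel `1 / n ^ 2` as an element of `W` -/
noncomputable def Kw : W := mkW (fun n => ((hk n ^ 2 : ℝ) : ℂ)) (by
  refine summable_hk_sq.congr fun n => ?_
  rw [Complex.norm_real, Real.norm_of_nonneg (hk_sq_nonneg n)])

theorem norm_Kw : ‖Kw‖ = Real.pi ^ 2 / 3 := by
  rw [norm_eq, ← hasSum_hk_sq.tsum_eq]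
  refine tsum_congr fun n => ?_
  show ‖((hk n ^ 2 : ℝ) : ℂ)‖ = _
  rw [Complex.norm_real, Real.norm_of_nonneg (hk_sq_nonneg n)]

theorem pos_Kw : Pos Kw := pos_of_real _ hk_sq_nonneg fun _ => rfl

theorem KT_eq (f : W) (n : ℤ) : KT f n = co (f * Kw) n := rfl

/-- the squares of the Hilbert transform as an element of `W` -/
noncomputable def psH (f : W) : W := mkW (fun n => ((‖HT f n‖ ^ 2 : ℝ) : ℂ)) (by
  refine (summable_HT_sq f).congr fun n => ?_
  rw [Complex.norm_real, Real.norm_of_nonneg (by positivity)])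

theorem co_psH (f : W) (n : ℤ) : co (psH f) n = ((‖HT f n‖ ^ 2 : ℝ) : ℂ) := rfl

theorem pos_psH (f : W) : Pos (psH f) := pos_of_real _ (fun _ => by positivity) (co_psH f)

theorem co_sum {ι : Type*} (s : Finset ι) (f : ι → W) (n : ℤ) :
    co (∑ k ∈ s, f k) n = ∑ k ∈ s, co (f k) n := by
  classical
  induction s using Finset.induction_on with
  | empty => simp [co_zero]
  | insert a t ha ih => rw [Finset.sum_insert ha, Finset.sum_insert ha, co_add, ih]

theorem co_sum_psq {ι : Type*} (s : Finset ι) (f : ι → W) (n : ℤ) :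
    co (∑ k ∈ s, psq (f k)) n = ((∑ k ∈ s, ‖co (f k) n‖ ^ 2 : ℝ) : ℂ) := by
  rw [co_sum, Complex.ofReal_sum]
  exact Finset.sum_congr rfl fun k _ => co_psq _ _

theorem co_sum_psH {ι : Type*} (s : Finset ι) (f : ι → W) (n : ℤ) :
    co (∑ k ∈ s, psH (f k)) n = ((∑ k ∈ s, ‖HT (f k) n‖ ^ 2 : ℝ) : ℂ) := by
  rw [co_sum, Complex.ofReal_sum]
  exact Finset.sum_congr rfl fun k _ => co_psH _ _

/-- Cauchy-Schwarz for vector valued products -/
theorem n2_le_of_prod {u F G : W} {x y : ℤ → ℝ} (hF : ∀ n, co F n = (x n : ℂ))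
    (hG : ∀ n, co G n = (y n : ℂ)) (h : ∀ n, ‖co u n‖ ^ 2 ≤ x n * y n) :
    n2 u ^ 2 ≤ n2 F * n2 G := by
  refine le_trans ?_ (ip_le F G)
  rw [n2_sq, ip_eq']
  refine Summable.tsum_le_tsum (fun n => ?_) (summable_sq u) ?_
  · rw [hF, hG]
    simpa using h n
  · have := (Complex.hasSum_re (summable_pairing F G).hasSum).summable
    refine this.congr fun n => ?_
    rw [Complex.mul_re, Complex.conj_re, Complex.conj_im]
    ring

theorem norm_sum_mul_sq_le {ι : Type*} (s : Finset ι) (a b : ι → ℂ) :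
    ‖∑ k ∈ s, a k * b k‖ ^ 2 ≤ (∑ k ∈ s, ‖a k‖ ^ 2) * ∑ k ∈ s, ‖b k‖ ^ 2 := by
  refine le_trans ?_ (Finset.sum_mul_sq_le_sq_mul_sq s (fun k => ‖a k‖) fun k => ‖b k‖)
  refine pow_le_pow_left₀ (norm_nonneg _) ?_ 2
  refine (norm_sum_le _ _).trans (le_of_eq ?_)
  exact Finset.sum_congr rfl fun k _ => norm_mul _ _

/-- The vector valued Cotlar inequality. -/
theorem cotlar {ι : Type*} (s : Finset ι) (f : ι → W) :
    n2 (∑ k ∈ s, psH (f k)) ≤ (1 + √2) ^ 2 * Real.pi ^ 2 * n2 (∑ k ∈ s, psq (f k)) := by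
  set B := ∑ k ∈ s, psq (f k) with hB
  set R := ∑ k ∈ s, psH (f k) with hR
  have hBn : ∀ n, co B n = ((∑ k ∈ s, ‖co (f k) n‖ ^ 2 : ℝ) : ℂ) := co_sum_psq s f
  have hRn : ∀ n, co R n = ((∑ k ∈ s, ‖HT (f k) n‖ ^ 2 : ℝ) : ℂ) := co_sum_psH s f
  have hπ := Real.pi_pos
  set U := ∑ k ∈ s, pm (f k) (HT (cj (f k))) (norm_HT_le _) with hU
  set U' := ∑ k ∈ s, pm (cj (f k)) (HT (f k)) (norm_HT_le _) with hU'
  set X := ∑ k ∈ s, had (f k) (cj (f k) * Kw) with hX
  set X' := ∑ k ∈ s, had (cj (f k)) (f k * Kw) with hX'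
  set D := R - (X + X' + B * Kw) with hD
  have hDn : ∀ n, co D n = HT (U + U') n := by
    intro n
    have h1 : ∀ k ∈ s, ((‖HT (f k) n‖ ^ 2 : ℝ) : ℂ) =
        HT (pm (f k) (HT (cj (f k))) (norm_HT_le _)) n + (HT (pm (cj (f k)) (HT (f k)) (norm_HT_le _)) n
        + (co (f k) n * co (cj (f k) * Kw) n + (co (cj (f k)) n * co (f k * Kw) n
          + co (psq (f k) * Kw) n))) := by
      intro k _
      have h2 := cotlar_id (f k) (cj (f k)) n
      rw [KT_eq, KT_eq, KT_eq] at h2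
      have h3 : pm (f k) (co (cj (f k))) (norm_co_le _) = psq (f k) := by
        apply ext_co
        intro m
        rw [co_pm, co_psq, co_cj, Complex.mul_conj']
        push_cast
        rfl
      rw [h3] at h2
      rw [← h2, HT_cj, Complex.mul_conj']
      push_cast
      rfl
    rw [hD, co_sub, co_add, co_add, hRn, Complex.ofReal_sum, Finset.sum_congr rfl h1, HT_add, hU,
      hU', HT_sum, HT_sum, hX, hX', co_sum, co_sum, hB, Finset.sum_mul, co_sum]
    simp only [Finset.sum_add_distrib, co_had]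
    ring
  have hU2 : n2 U ^ 2 ≤ n2 B * n2 R := by
    refine n2_le_of_prod hBn hRn fun n => ?_
    rw [hU, co_sum]
    refine (norm_sum_mul_sq_le s (fun k => co (f k) n) (fun k => HT (cj (f k)) n)).trans (le_of_eq ?_)
    congr 1
    refine Finset.sum_congr rfl fun k _ => ?_
    rw [HT_cj, RCLike.norm_conj]
  have hU2' : n2 U' ^ 2 ≤ n2 B * n2 R := by
    refine n2_le_of_prod hBn hRn fun n => ?_
    rw [hU', co_sum]
    refine (norm_sum_mul_sq_le s (fun k => co (cj (f k)) n) (fun k => HT (f k) n)).trans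
      (le_of_eq ?_)
    congr 1
    refine Finset.sum_congr rfl fun k _ => ?_
    rw [co_cj, RCLike.norm_conj]
  have hC : ∀ g : ι → W, (∀ k, psq (g k) = psq (f k)) →
      n2 (∑ k ∈ s, psq (g k * Kw)) ≤ (Real.pi ^ 2 / 3) ^ 2 * n2 B := by
    intro g hg
    have h1 : Dom (∑ k ∈ s, psq (g k * Kw))
        (∑ k ∈ s, (((‖Kw‖ : ℝ) : ℂ) • (ab Kw * psq (f k)))) := by
      refine Dom.sum fun k _ => ?_
      rw [mul_comm, ← hg k]
      exact dom_psq_mul _ _
    refine (n2_le_of_dom (Pos.sum fun k _ => pos_psq _) h1).trans ?_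
    rw [← Finset.smul_sum, ← Finset.mul_sum, n2_smul_real (norm_nonneg _), pos_Kw.ab_eq]
    refine (mul_le_mul_of_nonneg_left (n2_mul_le _ _) (norm_nonneg _)).trans (le_of_eq ?_)
    rw [norm_Kw]
    ring
  have hXX : ∀ a g : ι → W, (∀ k, psq (a k) = psq (f k)) → (∀ k, psq (g k) = psq (f k)) →
      n2 (∑ k ∈ s, had (a k) (g k * Kw)) ≤ Real.pi ^ 2 / 3 * n2 B := by
    intro a g ha hg
    have h1 : n2 (∑ k ∈ s, had (a k) (g k * Kw)) ^ 2 ≤ n2 B * n2 (∑ k ∈ s, psq (g k * Kw)) := by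
      refine n2_le_of_prod (x := fun n => ∑ k ∈ s, ‖co (a k) n‖ ^ 2) (fun n => ?_)
        (co_sum_psq s fun k => g k * Kw) fun n => ?_
      · rw [hBn]
        congr 1
        refine Finset.sum_congr rfl fun k _ => ?_
        have h3 := congrArg (fun w => co w n) (ha k)
        simp only [co_psq] at h3
        exact_mod_cast h3.symm
      · rw [co_sum]
        exact norm_sum_mul_sq_le s (fun k => co (a k) n) (fun k => co (g k * Kw) n)
    have h2 := hC g hg
    have h3 := n2_nonneg B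
    have h4 : n2 (∑ k ∈ s, had (a k) (g k * Kw)) ^ 2 ≤ (Real.pi ^ 2 / 3 * n2 B) ^ 2 := by
      refine h1.trans ?_
      calc n2 B * n2 (∑ k ∈ s, psq (g k * Kw)) ≤ n2 B * ((Real.pi ^ 2 / 3) ^ 2 * n2 B) :=
            mul_le_mul_of_nonneg_left h2 h3
        _ = (Real.pi ^ 2 / 3 * n2 B) ^ 2 := by ring
    exact (pow_le_pow_iff_left₀ (n2_nonneg _) (by positivity) two_ne_zero).1 h4
  have hpc : ∀ k, psq (cj (f k)) = psq (f k) := fun k => ext_co fun n => by
    rw [co_psq, co_psq, co_cj, RCLike.norm_conj]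
  have hX1 : n2 X ≤ Real.pi ^ 2 / 3 * n2 B := hXX f (fun k => cj (f k)) (fun _ => rfl) hpc
  have hX2 : n2 X' ≤ Real.pi ^ 2 / 3 * n2 B := hXX (fun k => cj (f k)) f hpc (fun _ => rfl)
  have hK : n2 (B * Kw) ≤ Real.pi ^ 2 / 3 * n2 B := by
    rw [mul_comm, ← norm_Kw]
    exact n2_mul_le _ _
  have hDle : n2 D ≤ Real.pi * (n2 U + n2 U') := by
    have h1 : n2 D ^ 2 ≤ (Real.pi * n2 (U + U')) ^ 2 := by
      rw [mul_pow, n2_sq, n2_sq]
      simp_rw [hDn]
      exact tsum_HT_sq_le _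
    have h2 : n2 D ≤ Real.pi * n2 (U + U') :=
      (pow_le_pow_iff_left₀ (n2_nonneg _) (mul_nonneg hπ.le (n2_nonneg _)) two_ne_zero).1 h1
    exact h2.trans (mul_le_mul_of_nonneg_left (n2_add_le _ _) hπ.le)
  have hRle : n2 R ≤ n2 D + (n2 X + n2 X' + n2 (B * Kw)) := by
    have h1 : R = D + (X + X' + B * Kw) := by rw [hD]; abel
    calc n2 R = n2 (D + (X + X' + B * Kw)) := by rw [← h1]
      _ ≤ n2 D + n2 (X + X' + B * Kw) := n2_add_le _ _
      _ ≤ n2 D + (n2 (X + X') + n2 (B * Kw)) := by gcongr; exact n2_add_le _ _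
      _ ≤ n2 D + (n2 X + n2 X' + n2 (B * Kw)) := by gcongr; exact n2_add_le _ _
  -- the quadratic inequality
  set a := n2 R
  set b := n2 B
  have ha : 0 ≤ a := n2_nonneg _
  have hb : 0 ≤ b := n2_nonneg _
  have hsa := Real.sq_sqrt ha
  have hsb := Real.sq_sqrt hb
  set p := √a
  set q := √b
  have hp : 0 ≤ p := Real.sqrt_nonneg _
  have hq : 0 ≤ q := Real.sqrt_nonneg _
  have hU3 : n2 U ≤ p * q := by
    refine (pow_le_pow_iff_left₀ (n2_nonneg _) (by positivity) two_ne_zero).1 ?_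
    rw [mul_pow, hsa, hsb, mul_comm]
    exact hU2
  have hU3' : n2 U' ≤ p * q := by
    refine (pow_le_pow_iff_left₀ (n2_nonneg _) (by positivity) two_ne_zero).1 ?_
    rw [mul_pow, hsa, hsb, mul_comm]
    exact hU2'
  have hmain : p ^ 2 ≤ 2 * Real.pi * (p * q) + Real.pi ^ 2 * q ^ 2 := by
    rw [hsa, hsb]
    have : Real.pi * (n2 U + n2 U') ≤ Real.pi * (p * q + p * q) := by gcongr
    nlinarith
  have h2 : (√2) ^ 2 = 2 := Real.sq_sqrt (by norm_num)
  have h20 : 0 ≤ √2 := Real.sqrt_nonneg _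
  have hpq : p ≤ (1 + √2) * Real.pi * q := by
    by_contra hcon
    push Not at hcon
    have h3 : (p - Real.pi * q) ^ 2 ≤ 2 * (Real.pi * q) ^ 2 := by nlinarith
    have h4 : √2 * (Real.pi * q) < p - Real.pi * q := by nlinarith
    have h5 : (√2 * (Real.pi * q)) ^ 2 < (p - Real.pi * q) ^ 2 :=
      pow_lt_pow_left₀ h4 (by positivity) two_ne_zero
    rw [mul_pow, h2] at h5
    linarith
  calc a = p ^ 2 := hsa.symm
    _ ≤ ((1 + √2) * Real.pi * q) ^ 2 := pow_le_pow_left₀ hp hpq 2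
    _ = (1 + √2) ^ 2 * Real.pi ^ 2 * b := by rw [mul_pow, mul_pow, hsb]

end Pool.Agent.H40.Vin
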