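import Mathlib
import Pool.Agent.H36.Vin.Fej
import Pool.Agent.H40.Vin.Cotlar

/-!
# Commutators of trapezoid filters with multiplication by low frequency sequences
-/

namespace Pool.Agent.H40.Vin

open scoped BigOperators ComplexConjugate
open Pool.Agent.H47.Vin Filter

theorem norm_had_le (a b : W) : ‖had a b‖ ≤ ‖a‖ * ‖b‖ := by
  rw [norm_eq, norm_eq a, ← tsum_mul_right]
  refine Summable.tsum_le_tsum (fun n => ?_) (summable_co _) ((summable_co a).mul_right _)
  rw [co_had, norm_mul]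
  exact mul_le_mul_of_nonneg_left (norm_co_le b n) (norm_nonneg _)

/-- the commutator of the filter `a` with multiplication by `g`, as a linear map in `a` -/
noncomputable def comL (f g : W) : W →ₗ[ℂ] W where
  toFun a := had (a * f) g - a * had f g
  map_add' a b := by
    rw [add_mul, add_had, add_mul]
    abel
  map_smul' c a := by
    rw [smul_mul_assoc, smul_had, smul_mul_assoc, ← smul_sub]
    rfl

theorem comL_apply (f g a : W) : comL f g a = had (a * f) g - a * had f g := rfl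

theorem norm_comL_le (f g a : W) : ‖comL f g a‖ ≤ (2 * ‖f‖ * ‖g‖) * ‖a‖ := by
  rw [comL_apply]
  refine (norm_sub_le _ _).trans ?_
  have h1 : ‖had (a * f) g‖ ≤ ‖a‖ * ‖f‖ * ‖g‖ :=
    (norm_had_le _ _).trans (mul_le_mul_of_nonneg_right (norm_mul_le _ _) (norm_nonneg _))
  have h2 : ‖a * had f g‖ ≤ ‖a‖ * (‖f‖ * ‖g‖) :=
    (norm_mul_le _ _).trans (mul_le_mul_of_nonneg_left (norm_had_le _ _) (norm_nonneg _))
  linarith

theorem continuous_comL (f g : W) : Continuous (comL f g) :=
  (LinearMap.mkContinuous (comL f g) _ (norm_comL_le f g)).continuous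

theorem comL_mono (f g : W) (m : ℤ) :
    comL f g (mono m) = had (mono m * f) ((1 - mono m) * g) := by
  rw [comL_apply, ← had_mono_mul, ← had_sub, sub_mul, one_mul]

theorem n2_comL_mono_le (f g : W) (m : ℤ) {r : ℝ} (h : n4 ((1 - mono m) * g) ≤ r) :
    n2 (comL f g (mono m)) ≤ r * n4 f := by
  rw [comL_mono]
  refine (n2_had_le _ _).trans ?_
  rw [n4_mono_mul, mul_comm]
  exact mul_le_mul_of_nonneg_right h (n4_nonneg _)

/-- the commutator is controlled by the kernel of the filter -/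
theorem n2_comL_le (f g a : W) {c : ℤ → ℝ} {S : ℝ} (hc : ∀ m, n4 ((1 - mono m) * g) ≤ c m)
    (hS : HasSum (fun m => ‖co a m‖ * c m) S) : n2 (comL f g a) ≤ S * n4 f := by
  have h1 : HasSum (fun m : ℤ => co a m • comL f g (mono m)) (comL f g a) :=
    hs_congr ((hasSum_mono a).map (comL f g).toAddMonoidHom (continuous_comL f g))
      (fun m => ((comL f g).map_smul _ _).symm) rfl
  have h2 : HasSum (fun m : ℤ => i2 (co a m • comL f g (mono m))) (i2 (comL f g a)) :=
    h1.map i2.toAddMonoidHom continuous_i2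
  have hle : ∀ m : ℤ, ‖i2 (co a m • comL f g (mono m))‖ ≤ ‖co a m‖ * c m * n4 f := by
    intro m
    show n2 _ ≤ _
    rw [n2_smul, mul_assoc]
    exact mul_le_mul_of_nonneg_left (n2_comL_mono_le f g m (hc m)) (norm_nonneg _)
  have hS' := hS.mul_right (n4 f)
  have hs : Summable (fun m : ℤ => ‖i2 (co a m • comL f g (mono m))‖) :=
    Summable.of_nonneg_of_le (fun _ => norm_nonneg _) hle hS'.summable
  show ‖i2 (comL f g a)‖ ≤ _
  rw [← h2.tsum_eq, ← hS'.tsum_eq]
  exact (norm_tsum_le_tsum_norm hs).trans (Summable.tsum_le_tsum hle hs hS'.summable)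

/-- Trapezoid filters almost commute with multiplication by low frequency sequences. -/
theorem comm_kap {p q d : ℕ} (hp : 1 ≤ p) (hpq : p + 4 * d ≤ q) (f : W) {g : W}
    (hg : kap q * g = g) :
    n2 (had (kap p * f) g - kap p * had f g) ≤ 66 * (1 / 2 : ℝ) ^ d * n4 f * n4 g := by
  set Q : ℕ := 2 ^ (p + 2 * d) with hQ
  have hQ0 : 0 < Q := by positivity
  set s : Set ℤ := {n : ℤ | (Q : ℤ) < |n|} with hs
  set r : ℝ := 20 * (Q : ℝ) / 2 ^ q with hr
  have hr0 : 0 ≤ r := by positivity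
  have h4 := n4_nonneg g
  have h4f := n4_nonneg f
  classical
  have hc : ∀ m : ℤ, n4 ((1 - mono m) * g) ≤ r * n4 g + if m ∈ s then 2 * n4 g else 0 := by
    intro m
    split_ifs with h
    · have h1 : n4 ((1 - mono m) * g) ≤ 2 * n4 g := by
        rw [sub_mul, one_mul]
        refine (n4_sub_le _ _).trans ?_
        rw [n4_mono_mul]
        linarith
      have : 0 ≤ r * n4 g := by positivity
      linarith
    · have hm : |(m : ℝ)| ≤ Q := by
        have h' : |m| ≤ (Q : ℤ) := by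
          simpa [hs] using h
        have h'' : ((|m| : ℤ) : ℝ) ≤ ((Q : ℤ) : ℝ) := by exact_mod_cast h'
        simpa using h''
      rw [add_zero]
      calc n4 ((1 - mono m) * g) = n4 ((1 - mono m) * kap q * g) := by rw [mul_assoc, hg]
        _ ≤ ‖(1 - mono m) * kap q‖ * n4 g := n4_mul_le _ _
        _ ≤ (20 * |(m : ℝ)| / 2 ^ q) * n4 g := by
            refine mul_le_mul_of_nonneg_right (norm_one_sub_mono_mul_kap (by omega) m) h4
        _ ≤ r * n4 g := by
            refine mul_le_mul_of_nonneg_right ?_ h4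
            rw [hr]
            gcongr
  have hS : HasSum (fun m => ‖co (kap p) m‖ * (r * n4 g + if m ∈ s then 2 * n4 g else 0))
      (‖kap p‖ * (r * n4 g) + ‖res s (kap p)‖ * (2 * n4 g)) := by
    have e1 : HasSum (fun m => ‖co (kap p) m‖) ‖kap p‖ := by
      rw [norm_eq]
      exact (summable_co _).hasSum
    have e2 : HasSum (fun m => ‖co (res s (kap p)) m‖) ‖res s (kap p)‖ := by
      rw [norm_eq]
      exact (summable_co _).hasSum
    refine hs_congr ((e1.mul_right (r * n4 g)).add (e2.mul_right (2 * n4 g))) (fun m => ?_) rfl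
    rw [mul_add]
    congr 1
    by_cases h : m ∈ s
    · rw [co_res_of_mem h, if_pos h]
    · rw [co_res_of_notMem h, if_neg h]
      simp
  have hmain := n2_comL_le f g (kap p) hc hS
  rw [comL_apply] at hmain
  refine hmain.trans ?_
  have hk := norm_kap_le hp
  have ht := tail_kap hp hQ0
  have e3 : Real.sqrt (2 ^ p / (Q : ℝ)) = (1 / 2 : ℝ) ^ d := by
    rw [hQ]
    push_cast
    have e30 : (2 : ℝ) ^ p / 2 ^ (p + 2 * d) = ((1 / 2 : ℝ) ^ d) ^ 2 := by
      rw [← pow_mul, mul_comm d 2, div_eq_iff (by positivity), pow_add, one_div, inv_pow]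
      field_simp
    rw [e30, Real.sqrt_sq (by positivity)]
  rw [e3] at ht
  have e4 : r ≤ 20 * (1 / 2 : ℝ) ^ d := by
    rw [hr, hQ]
    push_cast
    have h1 : (2 : ℝ) ^ (p + 2 * d) * 2 ^ d ≤ 2 ^ q := by
      rw [← pow_add]
      exact pow_le_pow_right₀ (by norm_num) (by omega)
    rw [one_div, inv_pow, div_le_iff₀ (by positivity), mul_assoc]
    refine mul_le_mul_of_nonneg_left ?_ (by norm_num)
    rw [inv_mul_eq_div, le_div_iff₀ (by positivity)]
    exact h1
  have hd0 : (0 : ℝ) ≤ (1 / 2 : ℝ) ^ d := by positivity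
  have e5 : ‖kap p‖ * (r * n4 g) + ‖res s (kap p)‖ * (2 * n4 g)
      ≤ 66 * (1 / 2 : ℝ) ^ d * n4 g := by
    have h1 : ‖kap p‖ * (r * n4 g) ≤ 3 * (20 * (1 / 2 : ℝ) ^ d * n4 g) := by
      gcongr
    have h2 : ‖res s (kap p)‖ * (2 * n4 g) ≤ 3 * (1 / 2 : ℝ) ^ d * (2 * n4 g) := by
      gcongr
    linarith
  calc (‖kap p‖ * (r * n4 g) + ‖res s (kap p)‖ * (2 * n4 g)) * n4 f
      ≤ 66 * (1 / 2 : ℝ) ^ d * n4 g * n4 f := mul_le_mul_of_nonneg_right e5 h4f
    _ = 66 * (1 / 2 : ℝ) ^ d * n4 f * n4 g := by ring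

end Pool.Agent.H40.Vin
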