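import Mathlib
import Pool.Agent.H40.Vin.CM

/-!
# Square function estimate for the zones (upper bound)
-/

namespace Pool.Agent.H40.Vin

open scoped BigOperators ComplexConjugate
open Pool.Agent.H47.Vin Filter

/-- zone filters: `1 - kap (a 0)` and `kap (a j) - kap (a (j + 1))` -/
noncomputable def Del (a : ℕ → ℕ) : ℕ → W
  | 0 => 1 - kap (a 0)
  | j + 1 => kap (a j) - kap (a (j + 1))

/-- positive majorants of the kernels of the zone filters -/
noncomputable def Dk (a : ℕ → ℕ) : ℕ → W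
  | 0 => 1 + Kp (a 0)
  | j + 1 => Kp (a j) + Kp (a (j + 1))

theorem adj_one' : adj (1 : W) = 1 := ext_ev fun t => by rw [ev_adj, ev_one', map_one]

theorem one_le_of_strictMono {a : ℕ → ℕ} (h0 : 1 ≤ a 0) (ha : ∀ j, a j < a (j + 1)) (j : ℕ) :
    1 ≤ a j := by
  induction j with
  | zero => exact h0
  | succ j ih => exact ih.trans (ha j).le

theorem adj_Del {a : ℕ → ℕ} (h1 : ∀ j, 1 ≤ a j) (j : ℕ) : adj (Del a j) = Del a j := by
  cases j with
  | zero => rw [Del, adj_sub, adj_one', adj_kap (h1 0)]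
  | succ j => rw [Del, adj_sub, adj_kap (h1 _), adj_kap (h1 _)]

theorem dom_ab_sub (u v : W) : Dom (ab (u - v)) (ab u + ab v) := by
  rw [dom_iff]
  intro n
  rw [co_add, co_ab, co_ab, co_ab, co_sub, ← Complex.ofReal_add, Complex.ofReal_re,
    Complex.ofReal_re, Complex.ofReal_im, Complex.ofReal_im]
  exact ⟨norm_sub_le _ _, rfl⟩

theorem dom_ab_Del {a : ℕ → ℕ} (h1 : ∀ j, 1 ≤ a j) (j : ℕ) : Dom (ab (Del a j)) (Dk a j) := by
  cases j with
  | zero =>
    refine (dom_ab_sub _ _).trans (Dom.add ?_ (dom_ab_kap (h1 0)))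
    rw [pos_one.ab_eq]
    exact Dom.rfl' _
  | succ j => exact (dom_ab_sub _ _).trans (Dom.add (dom_ab_kap (h1 _)) (dom_ab_kap (h1 _)))

theorem norm_Del_le {a : ℕ → ℕ} (h1 : ∀ j, 1 ≤ a j) (j : ℕ) : ‖Del a j‖ ≤ 6 := by
  cases j with
  | zero =>
    refine (norm_sub_le _ _).trans ?_
    rw [norm_one']
    linarith [norm_kap_le (h1 0)]
  | succ j =>
    refine (norm_sub_le _ _).trans ?_
    linarith [norm_kap_le (h1 j), norm_kap_le (h1 (j + 1))]

theorem sum_Del (a : ℕ → ℕ) (n : ℕ) : ∑ j ∈ Finset.range (n + 1), Del a j = 1 - kap (a n) := by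
  induction n with
  | zero => simp [Del]
  | succ n ih =>
    rw [Finset.sum_range_succ, ih, Del]
    abel

theorem ev_Del_real {a : ℕ → ℕ} (h1 : ∀ j, 1 ≤ a j) (ha : ∀ j, a j < a (j + 1)) (t : ℝ) (j : ℕ) :
    ∃ r : ℝ, 0 ≤ r ∧ r ≤ 1 ∧ ev t (Del a j) = (r : ℂ) := by
  cases j with
  | zero =>
    obtain ⟨r, h0, h2, h3⟩ := ev_kap_real (h1 0) t
    refine ⟨1 - r, by linarith, by linarith, ?_⟩
    rw [Del, ev_sub, ev_one', h3]
    push_cast
    rfl
  | succ j =>
    obtain ⟨r, h0, h2, h3⟩ := ev_kap_real (h1 j) t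
    obtain ⟨r', h0', h2', h3'⟩ := ev_kap_real (h1 (j + 1)) t
    have h4 := ev_kap_anti (h1 j) (ha j).le t
    rw [h3, h3', Complex.ofReal_re, Complex.ofReal_re] at h4
    refine ⟨r - r', by linarith, by linarith, ?_⟩
    rw [Del, ev_sub, h3, h3']
    push_cast
    rfl

theorem sum_ev_Del_sq_le {a : ℕ → ℕ} (h1 : ∀ j, 1 ≤ a j) (ha : ∀ j, a j < a (j + 1)) (t : ℝ)
    (n : ℕ) : ∑ j ∈ Finset.range n, ‖ev t (Del a j)‖ ^ 2 ≤ 1 := by
  choose r hr0 hr1 hr using ev_Del_real h1 ha t
  have e1 : ∑ j ∈ Finset.range n, ‖ev t (Del a j)‖ ^ 2 ≤ ∑ j ∈ Finset.range n, r j := by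
    refine Finset.sum_le_sum fun j _ => ?_
    rw [hr, Complex.norm_real, Real.norm_of_nonneg (hr0 j)]
    have := hr0 j
    have := hr1 j
    nlinarith
  refine e1.trans ?_
  cases n with
  | zero => simp
  | succ n =>
    obtain ⟨s, hs0, hs1, hs⟩ := ev_kap_real (h1 n) t
    have h2 : ((∑ j ∈ Finset.range (n + 1), r j : ℝ) : ℂ) = ((1 - s : ℝ) : ℂ) := by
      push_cast
      rw [← hs, ← ev_one' t, ← ev_sub, ← sum_Del, ev_sum]
      exact Finset.sum_congr rfl fun j _ => (hr j).symm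
    have h3 : ∑ j ∈ Finset.range (n + 1), r j = 1 - s := by exact_mod_cast h2
    linarith

/-- the commutator of a zone filter -/
theorem comm_Del {a : ℕ → ℕ} (h1 : ∀ j, 1 ≤ a j) (ha : ∀ j, a j < a (j + 1)) {q d i : ℕ}
    (hq : a i + 4 * d ≤ q) (f : W) {g : W} (hg : kap q * g = g) :
    n2 (had (Del a i * f) g - Del a i * had f g) ≤ 132 * (1 / 2 : ℝ) ^ d * n4 f * n4 g := by
  have hd0 : 0 ≤ (1 / 2 : ℝ) ^ d * n4 f * n4 g :=
    mul_nonneg (mul_nonneg (by positivity) (n4_nonneg _)) (n4_nonneg _)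
  have e1 := comm_kap (h1 i) hq f hg
  cases i with
  | zero =>
    have e2 : had (Del a 0 * f) g - Del a 0 * had f g
        = -(had (kap (a 0) * f) g - kap (a 0) * had f g) := by
      rw [Del, sub_mul, sub_mul, sub_had, one_mul, one_mul]
      abel
    rw [e2, n2_neg]
    linarith
  | succ i =>
    have e2 : had (Del a (i + 1) * f) g - Del a (i + 1) * had f g
        = (had (kap (a i) * f) g - kap (a i) * had f g)
          - (had (kap (a (i + 1)) * f) g - kap (a (i + 1)) * had f g) := by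
      rw [Del, sub_mul, sub_mul, sub_had]
      abel
    have e3 := comm_kap (h1 i) (show a i + 4 * d ≤ q by have := ha i; omega) f hg
    rw [e2]
    refine (n2_sub_le _ _).trans ?_
    linarith

/-- counting near-diagonal terms -/
theorem near_diag (N : ℕ → ℕ → ℝ) (hs : ∀ i j, N i j = N j i)
    (hn : ∀ j, 2 * N j (j + 1) ≤ N j j + N (j + 1) (j + 1)) (h0 : ∀ j, 0 ≤ N j j) (n : ℕ) :
    ∑ i ∈ Finset.range (n + 1), ∑ j ∈ Finset.range (n + 1), N i j + N n n ≤
      3 * ∑ j ∈ Finset.range (n + 1), N j j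
        + 2 * ∑ j ∈ Finset.range (n + 1), ∑ i ∈ Finset.range (j - 1), N i j := by
  induction n with
  | zero => simp; linarith [h0 0]
  | succ n ih =>
    have e1 : ∑ i ∈ Finset.range (n + 1 + 1), ∑ j ∈ Finset.range (n + 1 + 1), N i j
        = ∑ i ∈ Finset.range (n + 1), ∑ j ∈ Finset.range (n + 1), N i j
          + 2 * ∑ i ∈ Finset.range (n + 1), N i (n + 1) + N (n + 1) (n + 1) := by
      rw [Finset.sum_range_succ]
      simp_rw [Finset.sum_range_succ (fun j => N _ j) (n + 1)]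
      rw [Finset.sum_add_distrib]
      have : ∑ j ∈ Finset.range (n + 1), N (n + 1) j = ∑ i ∈ Finset.range (n + 1), N i (n + 1) :=
        Finset.sum_congr rfl fun i _ => hs _ _
      rw [this]
      ring
    rw [e1, Finset.sum_range_succ (fun j => N j j) (n + 1),
      Finset.sum_range_succ (fun j => ∑ i ∈ Finset.range (j - 1), N i j) (n + 1),
      Finset.sum_range_succ (fun i => N i (n + 1)) n]
    have := hn n
    simp only [Nat.add_sub_cancel]
    linarith

/-- the geometric weights -/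
theorem weights (t : ℕ → ℝ) (n : ℕ) :
    ∑ j ∈ Finset.range (n + 1), ∑ i ∈ Finset.range (j - 1), t i * (1 / 4 : ℝ) ^ (j - 2 - i)
      + 4 / 3 * ∑ i ∈ Finset.range n, t i * (1 / 4 : ℝ) ^ (n - 1 - i)
      = 4 / 3 * ∑ i ∈ Finset.range n, t i := by
  induction n with
  | zero => simp
  | succ n ih =>
    rw [Finset.sum_range_succ (fun j => ∑ i ∈ Finset.range (j - 1), t i * (1 / 4 : ℝ) ^ (j - 2 - i)),
      Finset.sum_range_succ (fun i => t i) n]
    have e1 : ∑ i ∈ Finset.range (n + 1), t i * (1 / 4 : ℝ) ^ (n + 1 - 1 - i)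
        = 1 / 4 * ∑ i ∈ Finset.range n, t i * (1 / 4 : ℝ) ^ (n - 1 - i) + t n := by
      rw [Finset.sum_range_succ, Finset.mul_sum]
      congr 1
      · refine Finset.sum_congr rfl fun i hi => ?_
        have : n + 1 - 1 - i = (n - 1 - i) + 1 := by
          have := Finset.mem_range.1 hi
          omega
        rw [this, pow_succ]
        ring
      · simp
    have e2 : ∑ i ∈ Finset.range (n + 1 - 1), t i * (1 / 4 : ℝ) ^ (n + 1 - 2 - i)
        = ∑ i ∈ Finset.range n, t i * (1 / 4 : ℝ) ^ (n - 1 - i) := by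
      rw [Nat.add_sub_cancel]
      refine Finset.sum_congr rfl fun i _ => ?_
      congr 2
    rw [e1, e2]
    linarith

theorem pos_sum_psq (n : ℕ) (f : ℕ → W) : Pos (∑ j ∈ Finset.range n, psq (f j)) :=
  Pos.sum fun _ _ => pos_psq _

theorem norm_Dk_self {a : ℕ → ℕ} (h1 : ∀ j, 1 ≤ a j) (j : ℕ) (f : W) :
    ip (psq (Del a j * f)) (psq (Del a j * f))
      ≤ 6 * ip (psq f) (adj (Dk a j) * psq (Del a j * f)) := by
  have h2 := dom_psq_mul' (dom_ab_Del h1 j) f
  have h3 := ip_mono (pos_psq (Del a j * f)) h2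
  rw [ip_smul_left, ip_mul_left] at h3
  refine h3.trans ?_
  refine mul_le_mul_of_nonneg_right (norm_Del_le h1 j) ?_
  refine ip_nonneg (pos_psq f) (Pos.mul (Pos.adj ?_) (pos_psq _))
  exact Dom.pos (pos_ab _) (dom_ab_Del h1 j)

/-- Square function estimate for the zone filters, with the dual Doob inequality as hypothesis. -/
theorem stepA_aux
    (hdd : ∀ (n : ℕ) (e : ℕ → ℕ), StrictMono e → (∀ j, 1 ≤ e j) → ∀ psi : ℕ → W,
      (∀ j, Pos (psi j)) → n2 (∑ j ∈ Finset.range n, Kp (e j) * psi j)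
        ≤ 15 * n2 (∑ j ∈ Finset.range n, psi j))
    (hadj : ∀ p, 1 ≤ p → adj (Kp p) = Kp p)
    (a g : ℕ → ℕ) (n : ℕ) (h0 : 1 ≤ a 0) (ha : ∀ j, a j + 4 * g j + 4 ≤ a (j + 1))
    (hg : ∑ j ∈ Finset.range n, (1 / 2 : ℝ) ^ g j ≤ 1) (f : W) :
    n2 (∑ j ∈ Finset.range n, psq (Del a j * f)) ≤ 2200 * n4 f ^ 2 := by
  have ha' : ∀ j, a j < a (j + 1) := fun j => by have := ha j; omega
  have h1 : ∀ j, 1 ≤ a j := one_le_of_strictMono h0 ha'
  have hmono : StrictMono a := strictMono_nat_of_lt_succ ha'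
  have hy0 : 0 ≤ n4 f := n4_nonneg f
  cases n with
  | zero => simpa [n2_zero] using by positivity
  | succ n =>
  set F : ℕ → W := fun j => Del a j * f with hF
  set G : W := ∑ j ∈ Finset.range (n + 1), psq (F j) with hG
  have hGpos : Pos G := pos_sum_psq _ _
  set x := n2 G with hx
  have hx0 : 0 ≤ x := n2_nonneg _
  set y := n4 f ^ 2 with hy
  have hy1 : 0 ≤ y := by positivity
  have hyn : n2 (psq f) = y := (n4_sq f).symm
  set N : ℕ → ℕ → ℝ := fun i j => ip (psq (F i)) (psq (F j)) with hN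
  have hNs : ∀ i j, N i j = N j i := fun i j => ip_comm _ _
  have hN0 : ∀ i j, 0 ≤ N i j := fun i j => ip_nonneg (pos_psq _) (pos_psq _)
  have hNn : ∀ j, 2 * N j (j + 1) ≤ N j j + N (j + 1) (j + 1) := by
    intro j
    have e1 : N j (j + 1) ≤ n2 (psq (F j)) * n2 (psq (F (j + 1))) := ip_le _ _
    have e2 : N j j = n2 (psq (F j)) ^ 2 := ip_self _
    have e3 : N (j + 1) (j + 1) = n2 (psq (F (j + 1))) ^ 2 := ip_self _
    rw [e2, e3]
    nlinarith [sq_nonneg (n2 (psq (F j)) - n2 (psq (F (j + 1))))]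
  -- the square of the norm as a double sum
  have hxx : x ^ 2 = ∑ i ∈ Finset.range (n + 1), ∑ j ∈ Finset.range (n + 1), N i j := by
    rw [hx, ← ip_self, hG, ip_sum_left]
    exact Finset.sum_congr rfl fun i _ => ip_sum_right _ _ _
  have hmain := near_diag N hNs hNn (fun j => hN0 j j) n
  -- the diagonal
  have hdiag : ∑ j ∈ Finset.range (n + 1), N j j ≤ 186 * (x * y) := by
    have e1 : ∑ j ∈ Finset.range (n + 1), N j j
        ≤ 6 * ip (psq f) (∑ j ∈ Finset.range (n + 1), adj (Dk a j) * psq (F j)) := by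
      rw [ip_sum_right, Finset.mul_sum]
      exact Finset.sum_le_sum fun j _ => norm_Dk_self h1 j f
    have e2 : ∑ j ∈ Finset.range (n + 1), adj (Dk a j) * psq (F j)
        = (psq (F 0) + ∑ j ∈ Finset.range n, Kp (a j) * psq (F (j + 1)))
          + ∑ j ∈ Finset.range (n + 1), Kp (a j) * psq (F j) := by
      rw [Finset.sum_range_succ', Finset.sum_range_succ' (fun j => Kp (a j) * psq (F j))]
      have e3 : ∀ j, adj (Dk a (j + 1)) = Kp (a j) + Kp (a (j + 1)) := fun j => by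
        rw [Dk, adj_add, hadj _ (h1 _), hadj _ (h1 _)]
      have e4 : adj (Dk a 0) = 1 + Kp (a 0) := by
        rw [Dk, adj_add, hadj _ (h1 _), adj_one']
      simp_rw [e3, e4, add_mul, one_mul, Finset.sum_add_distrib]
      abel
    have e5 : n2 (∑ j ∈ Finset.range (n + 1), adj (Dk a j) * psq (F j)) ≤ 31 * x := by
      rw [e2]
      have f1 : n2 (psq (F 0)) ≤ x := by
        refine n2_le_of_dom (pos_psq _) ?_
        have : G = (∑ j ∈ Finset.range n, psq (F (j + 1))) + psq (F 0) := by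
          rw [hG, Finset.sum_range_succ']
        rw [this]
        show Pos _
        rw [add_sub_cancel_right]
        exact Pos.sum fun _ _ => pos_psq _
      have f2 : n2 (∑ j ∈ Finset.range n, psq (F (j + 1))) ≤ x := by
        refine n2_le_of_dom (Pos.sum fun _ _ => pos_psq _) ?_
        have : G = (∑ j ∈ Finset.range n, psq (F (j + 1))) + psq (F 0) := by
          rw [hG, Finset.sum_range_succ']
        rw [this]
        show Pos _
        rw [add_sub_cancel_left]
        exact pos_psq _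
      have f3 := hdd n a hmono h1 (fun j => psq (F (j + 1))) fun _ => pos_psq _
      have f4 := hdd (n + 1) a hmono h1 (fun j => psq (F j)) fun _ => pos_psq _
      have f5 := n2_add_le (psq (F 0) + ∑ j ∈ Finset.range n, Kp (a j) * psq (F (j + 1)))
        (∑ j ∈ Finset.range (n + 1), Kp (a j) * psq (F j))
      have f6 := n2_add_le (psq (F 0)) (∑ j ∈ Finset.range n, Kp (a j) * psq (F (j + 1)))
      linarith
    have e6 := ip_le (psq f) (∑ j ∈ Finset.range (n + 1), adj (Dk a j) * psq (F j))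
    rw [hyn] at e6
    have e7 : y * n2 (∑ j ∈ Finset.range (n + 1), adj (Dk a j) * psq (F j)) ≤ y * (31 * x) :=
      mul_le_mul_of_nonneg_left e5 hy1
    linarith
  -- far terms
  have hfar : ∀ j ∈ Finset.range (n + 1), ∑ i ∈ Finset.range (j - 1), N i j ≤
      2 * n2 (had f (F j)) ^ 2 + 2 * (792 ^ 2 * y ^ 2
        * ∑ i ∈ Finset.range (j - 1), (1 / 4 : ℝ) ^ g i * (1 / 4 : ℝ) ^ (j - 2 - i)) := by
    intro j _
    have e1 : ∀ i ∈ Finset.range (j - 1), N i j ≤ 2 * n2 (Del a i * had f (F j)) ^ 2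
        + 2 * (792 ^ 2 * y ^ 2 * ((1 / 4 : ℝ) ^ g i * (1 / 4 : ℝ) ^ (j - 2 - i))) := by
      intro i hi
      have hi' : i + 2 ≤ j := by
        have := Finset.mem_range.1 hi
        omega
      obtain ⟨k, rfl⟩ : ∃ k, j = i + 2 + k := ⟨j - (i + 2), by omega⟩
      have hgrow : ∀ k, a (i + 1) + 4 * k ≤ a (i + 1 + k) := by
        intro k
        induction k with
        | zero => simp
        | succ k ih =>
          have := ha (i + 1 + k)
          rw [← add_assoc (i + 1) k 1]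
          omega
      have hq1 : 1 ≤ a (i + 1 + k) - 1 := by
        have := hgrow k
        have := ha i
        omega
      have hkg : kap (a (i + 1 + k) - 1) * F (i + 2 + k) = F (i + 2 + k) := by
        have hh : i + 2 + k = (i + 1 + k) + 1 := by ring
        rw [hF]
        simp only
        rw [hh, Del, ← mul_assoc, mul_sub, kap_mul_kap hq1 (by omega),
          kap_mul_kap hq1 (by have := ha' (i + 1 + k); omega)]
      have hcm := comm_Del (d := g i + k) h1 ha' (i := i) (q := a (i + 1 + k) - 1)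
        (by have := hgrow k; have := ha i; omega) f hkg
      have hFn : n4 (F (i + 2 + k)) ≤ 6 * n4 f :=
        (n4_mul_le _ _).trans (mul_le_mul_of_nonneg_right (norm_Del_le h1 _) hy0)
      have hcm2 : n2 (had (F i) (F (i + 2 + k)) - Del a i * had f (F (i + 2 + k)))
          ≤ 792 * (1 / 2 : ℝ) ^ (g i + k) * y := by
        refine hcm.trans ?_
        have : 132 * (1 / 2 : ℝ) ^ (g i + k) * n4 f * n4 (F (i + 2 + k))
            ≤ 132 * (1 / 2 : ℝ) ^ (g i + k) * n4 f * (6 * n4 f) := by gcongr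
        refine this.trans (le_of_eq ?_)
        rw [hy]
        ring
      have hadd := n2_add_le (had (F i) (F (i + 2 + k)) - Del a i * had f (F (i + 2 + k)))
        (Del a i * had f (F (i + 2 + k)))
      rw [sub_add_cancel] at hadd
      have hsq : (792 * (1 / 2 : ℝ) ^ (g i + k) * y) ^ 2
          = 792 ^ 2 * y ^ 2 * ((1 / 4 : ℝ) ^ g i * (1 / 4 : ℝ) ^ (i + 2 + k - 2 - i)) := by
        have h4 : i + 2 + k - 2 - i = k := by omega
        rw [h4, ← pow_add, mul_pow, mul_pow, ← pow_mul, mul_comm (g i + k) 2, pow_mul]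
        norm_num
        ring
      have hNij : N i (i + 2 + k) = n2 (had (F i) (F (i + 2 + k))) ^ 2 := ip_psq _ _
      rw [hNij, ← hsq]
      have hA := n2_nonneg (had (F i) (F (i + 2 + k)))
      have hB := n2_nonneg (Del a i * had f (F (i + 2 + k)))
      have hC := n2_nonneg (had (F i) (F (i + 2 + k)) - Del a i * had f (F (i + 2 + k)))
      set A := n2 (had (F i) (F (i + 2 + k)))
      set B := n2 (Del a i * had f (F (i + 2 + k)))
      set C := n2 (had (F i) (F (i + 2 + k)) - Del a i * had f (F (i + 2 + k)))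
      have h5 : A ^ 2 ≤ (C + B) ^ 2 := pow_le_pow_left₀ hA hadd 2
      have h6 : C ^ 2 ≤ (792 * (1 / 2 : ℝ) ^ (g i + k) * y) ^ 2 := pow_le_pow_left₀ hC hcm2 2
      nlinarith [sq_nonneg (C - B)]
    refine (Finset.sum_le_sum e1).trans ?_
    rw [Finset.sum_add_distrib, ← Finset.mul_sum, ← Finset.mul_sum, ← Finset.mul_sum]
    have e2 := sum_n2_mul_le (Finset.range (j - 1)) (Del a)
      (fun t _ => sum_ev_Del_sq_le h1 ha' t (j - 1)) (had f (F j))
    linarith
  have hfar2 := Finset.sum_le_sum hfar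
  rw [Finset.sum_add_distrib, ← Finset.mul_sum, ← Finset.mul_sum, ← Finset.mul_sum] at hfar2
  have hhad : ∑ j ∈ Finset.range (n + 1), n2 (had f (F j)) ^ 2 ≤ y * x := by
    have : ∑ j ∈ Finset.range (n + 1), n2 (had f (F j)) ^ 2 = ip (psq f) G := by
      rw [hG, ip_sum_right]
      exact Finset.sum_congr rfl fun j _ => (ip_psq _ _).symm
    rw [this, ← hyn]
    exact ip_le _ _
  have hw : ∑ j ∈ Finset.range (n + 1), ∑ i ∈ Finset.range (j - 1),
      (1 / 4 : ℝ) ^ g i * (1 / 4 : ℝ) ^ (j - 2 - i) ≤ 4 / 3 := by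
    have e1 := weights (fun i => (1 / 4 : ℝ) ^ g i) n
    have e2 : 0 ≤ ∑ i ∈ Finset.range n, (1 / 4 : ℝ) ^ g i * (1 / 4 : ℝ) ^ (n - 1 - i) :=
      Finset.sum_nonneg fun _ _ => by positivity
    have e3 : ∑ i ∈ Finset.range n, (1 / 4 : ℝ) ^ g i ≤ 1 := by
      refine le_trans ?_ hg
      rw [Finset.sum_range_succ]
      have : (0 : ℝ) ≤ (1 / 2 : ℝ) ^ g n := by positivity
      refine (Finset.sum_le_sum fun i _ => ?_).trans (le_add_of_nonneg_right this)
      exact pow_le_pow_left₀ (by norm_num) (by norm_num) _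
    linarith
  have hw2 : 792 ^ 2 * y ^ 2 * ∑ j ∈ Finset.range (n + 1), ∑ i ∈ Finset.range (j - 1),
      (1 / 4 : ℝ) ^ g i * (1 / 4 : ℝ) ^ (j - 2 - i) ≤ 792 ^ 2 * y ^ 2 * (4 / 3) :=
    mul_le_mul_of_nonneg_left hw (by positivity)
  have hNnn := hN0 n n
  have hfin : x ^ 2 ≤ 562 * (x * y) + 3345408 * y ^ 2 := by
    rw [hxx]
    nlinarith
  by_contra hcon
  push Not at hcon
  nlinarith [mul_nonneg hx0 hy1]

end Pool.Agent.H40.Vin
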