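import Mathlib
import Pool.Agent.H36.Vin.Stmt

/-!
# A product with the atomic singular inner function is not a Blaschke product
-/

namespace Pool.Agent.H40.Vin

open scoped BigOperators ComplexConjugate Topology
open Filter Metric Set

/-- the Blaschke factor with zero `a` (`0 < |a| < 1`) -/
noncomputable def bl (a z : ℂ) : ℂ := ((‖a‖ : ℂ) / a) * ((a - z) / (1 - conj a * z))

theorem den_ne {a z : ℂ} (ha : ‖a‖ < 1) (hz : ‖z‖ < 1) : 1 - conj a * z ≠ 0 := by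
  intro h
  have h1 : conj a * z = 1 := (sub_eq_zero.1 h).symm
  have h2 : ‖conj a * z‖ < 1 := by
    rw [norm_mul, RCLike.norm_conj]
    calc ‖a‖ * ‖z‖ ≤ ‖a‖ * 1 := mul_le_mul_of_nonneg_left hz.le (norm_nonneg _)
      _ < 1 := by linarith
  rw [h1, norm_one] at h2
  exact lt_irrefl _ h2

theorem bl_zero {a : ℂ} (ha : a ≠ 0) : bl a 0 = (‖a‖ : ℂ) := by
  unfold bl
  simp
  field_simp

theorem one_sub_bl {a z : ℂ} (h0 : a ≠ 0) (ha : ‖a‖ < 1) (hz : ‖z‖ < 1) :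
    bl a z - 1 = -((1 - ‖a‖ : ℝ) * ((a + ‖a‖ * z) / (a * (1 - conj a * z)))) := by
  have hd := den_ne ha hz
  have hn : (conj a) * a = (‖a‖ : ℂ) ^ 2 := by
    rw [mul_comm, Complex.mul_conj']
  unfold bl
  set D := 1 - conj a * z with hD
  have e1 : (‖a‖ : ℂ) * (a - z) - a * D = -((1 - ‖a‖ : ℝ) * (a + ‖a‖ * z)) := by
    rw [hD]
    push_cast
    linear_combination z * hn
  have e2 : ((‖a‖ : ℂ) / a) * ((a - z) / D) - 1 = ((‖a‖ : ℂ) * (a - z) - a * D) / (a * D) := by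
    field_simp
  rw [e2, e1]
  field_simp

theorem norm_den_ge {a z : ℂ} (ha : ‖a‖ < 1) : 1 - ‖z‖ ≤ ‖1 - conj a * z‖ := by
  have h1 : ‖(1 : ℂ)‖ - ‖conj a * z‖ ≤ ‖1 - conj a * z‖ := norm_sub_norm_le _ _
  rw [norm_one, norm_mul, RCLike.norm_conj] at h1
  have : ‖a‖ * ‖z‖ ≤ 1 * ‖z‖ := mul_le_mul_of_nonneg_right ha.le (norm_nonneg _)
  linarith

theorem norm_bl_sub_one_le {a z : ℂ} (h0 : a ≠ 0) (ha : ‖a‖ < 1) (hz : ‖z‖ < 1) :
    ‖bl a z - 1‖ ≤ (1 - ‖a‖) * (2 / (1 - ‖z‖)) := by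
  rw [one_sub_bl h0 ha hz, norm_neg, norm_mul, Complex.norm_real,
    Real.norm_of_nonneg (by linarith), norm_div, norm_mul]
  refine mul_le_mul_of_nonneg_left ?_ (by linarith)
  have h1 : ‖a + ‖a‖ * z‖ ≤ ‖a‖ * 2 := by
    refine (norm_add_le _ _).trans ?_
    rw [norm_mul, Complex.norm_real, Real.norm_of_nonneg (norm_nonneg _)]
    nlinarith [norm_nonneg a, norm_nonneg z]
  have h2 := norm_den_ge (z := z) ha
  have h3 : 0 < ‖a‖ := norm_pos_iff.2 h0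
  have h4 : 0 < 1 - ‖z‖ := by linarith
  have h5 : 0 < ‖1 - conj a * z‖ := lt_of_lt_of_le h4 h2
  rw [div_le_div_iff₀ (by positivity) h4]
  calc ‖a + ‖a‖ * z‖ * (1 - ‖z‖) ≤ (‖a‖ * 2) * ‖1 - conj a * z‖ :=
        mul_le_mul h1 h2 h4.le (by positivity)
    _ = 2 * (‖a‖ * ‖1 - conj a * z‖) := by ring

/-- the classical identity for `1 - |b_a|^2` as a lower bound for `|b_a|` -/
theorem norm_bl_sq_ge {a z : ℂ} (h0 : a ≠ 0) (ha : ‖a‖ < 1) (hz : ‖z‖ < 1) :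
    1 - 2 * (1 - ‖z‖ ^ 2) / (1 - ‖a‖) ≤ ‖bl a z‖ ^ 2 := by
  have h3 : 0 < ‖a‖ := norm_pos_iff.2 h0
  have hd := den_ne ha hz
  have hd' : 0 < ‖1 - conj a * z‖ := norm_pos_iff.2 hd
  have e1 : ‖bl a z‖ = ‖a - z‖ / ‖1 - conj a * z‖ := by
    unfold bl
    rw [norm_mul, norm_div, norm_div, Complex.norm_real, norm_norm, div_self h3.ne', one_mul]
  have e2 : ‖1 - conj a * z‖ ^ 2 - ‖a - z‖ ^ 2 = (1 - ‖a‖ ^ 2) * (1 - ‖z‖ ^ 2) := by
    rw [← Complex.normSq_eq_norm_sq, ← Complex.normSq_eq_norm_sq, ← Complex.normSq_eq_norm_sq,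
      ← Complex.normSq_eq_norm_sq]
    simp only [Complex.normSq_apply, Complex.sub_re, Complex.sub_im, Complex.mul_re,
      Complex.mul_im, Complex.conj_re, Complex.conj_im, Complex.one_re, Complex.one_im]
    ring
  have h5 : 1 - ‖a‖ ≤ ‖1 - conj a * z‖ := by
    have h1 : ‖(1 : ℂ)‖ - ‖conj a * z‖ ≤ ‖1 - conj a * z‖ := norm_sub_norm_le _ _
    rw [norm_one, norm_mul, RCLike.norm_conj] at h1
    have : ‖a‖ * ‖z‖ ≤ ‖a‖ * 1 := mul_le_mul_of_nonneg_left hz.le (norm_nonneg _)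
    linarith
  rw [e1, div_pow]
  have h6 : 0 < 1 - ‖a‖ := by linarith
  have hz2 : 0 ≤ 1 - ‖z‖ ^ 2 := by nlinarith [norm_nonneg z]
  have e3 : ‖a - z‖ ^ 2 / ‖1 - conj a * z‖ ^ 2
      = 1 - (1 - ‖a‖ ^ 2) * (1 - ‖z‖ ^ 2) / ‖1 - conj a * z‖ ^ 2 := by
    rw [← e2, sub_div, div_self (pow_ne_zero 2 hd'.ne')]
    ring
  rw [e3]
  have h7 : (1 - ‖a‖ ^ 2) * (1 - ‖z‖ ^ 2) / ‖1 - conj a * z‖ ^ 2 ≤ 2 * (1 - ‖z‖ ^ 2) / (1 - ‖a‖) := by
    rw [div_le_div_iff₀ (by positivity) h6]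
    have h8 : (1 - ‖a‖) ^ 2 ≤ ‖1 - conj a * z‖ ^ 2 := pow_le_pow_left₀ h6.le h5 2
    have h9 : (1 - ‖a‖ ^ 2) * (1 - ‖a‖) ≤ 2 * (1 - ‖a‖) ^ 2 := by nlinarith
    calc (1 - ‖a‖ ^ 2) * (1 - ‖z‖ ^ 2) * (1 - ‖a‖)
        = (1 - ‖z‖ ^ 2) * ((1 - ‖a‖ ^ 2) * (1 - ‖a‖)) := by ring
      _ ≤ (1 - ‖z‖ ^ 2) * (2 * ‖1 - conj a * z‖ ^ 2) :=
          mul_le_mul_of_nonneg_left (by linarith) hz2
      _ = 2 * (1 - ‖z‖ ^ 2) * ‖1 - conj a * z‖ ^ 2 := by ring
  linarith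

/-- tail products: the factors in the finite set `s` are removed -/
noncomputable def tl {ι : Type} [DecidableEq ι] (a : ι → ℂ) (s : Finset ι) (z : ℂ) : ℂ :=
  ∏' i, (1 + (if i ∈ s then 0 else bl (a i) z - 1))

section

variable {ι : Type} [DecidableEq ι] {a : ι → ℂ} (ha : ∀ i, a i ≠ 0 ∧ ‖a i‖ < 1)
  (hs : Summable (fun i => 1 - ‖a i‖))

include ha hs

theorem summable_tl (s : Finset ι) {z : ℂ} (hz : ‖z‖ < 1) :
    Summable (fun i => ‖(if i ∈ s then (0 : ℂ) else bl (a i) z - 1)‖) := by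
  refine Summable.of_nonneg_of_le (fun _ => norm_nonneg _) (fun i => ?_)
    (hs.mul_right (2 / (1 - ‖z‖)))
  have h1 := (ha i).2
  have h2 : 0 < 2 / (1 - ‖z‖) := by
    have : 0 < 1 - ‖z‖ := by linarith
    positivity
  split_ifs
  · rw [norm_zero]
    have : 0 ≤ 1 - ‖a i‖ := by linarith
    positivity
  · exact norm_bl_sub_one_le (ha i).1 (ha i).2 hz

theorem differentiableOn_tl (s : Finset ι) : DifferentiableOn ℂ (tl a s) (ball 0 1) := by
  have hdiff : ∀ i, DifferentiableOn ℂ (fun z => (if i ∈ s then (0 : ℂ) else bl (a i) z - 1))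
      (ball 0 1) := by
    intro i
    split_ifs
    · exact differentiableOn_const _
    · unfold bl
      refine ((DifferentiableOn.div ?_ ?_ ?_).const_mul _).sub_const _
      · fun_prop
      · fun_prop
      · intro z hz
        exact den_ne (ha i).2 (by simpa using hz)
  have hloc : TendstoLocallyUniformlyOn
      (fun (t : Finset ι) z => ∏ i ∈ t, (1 + (if i ∈ s then (0 : ℂ) else bl (a i) z - 1)))
      (tl a s) atTop (ball 0 1) := by
    rw [tendstoLocallyUniformlyOn_iff_forall_isCompact isOpen_ball]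
    intro K hK hKc
    have hρ : ∃ ρ < 1, ∀ z ∈ K, ‖z‖ ≤ ρ := by
      rcases K.eq_empty_or_nonempty with rfl | hne
      · exact ⟨0, one_pos, by simp⟩
      · obtain ⟨w, hw, hw2⟩ := hKc.exists_isMaxOn hne continuous_norm.continuousOn
        exact ⟨‖w‖, by simpa using hK hw, fun z hz => hw2 hz⟩
    obtain ⟨ρ, hρ1, hρ⟩ := hρ
    have h1 : 0 < 1 - ρ := by linarith
    have key := Summable.hasProdUniformlyOn_one_add (u := fun i => (1 - ‖a i‖) * (2 / (1 - ρ)))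
      (f := fun i z => (if i ∈ s then (0 : ℂ) else bl (a i) z - 1)) hKc (hs.mul_right _)
      (Filter.Eventually.of_forall fun i z hz => ?_) (fun i => ((hdiff i).mono hK).continuousOn)
    · exact key.tendstoUniformlyOn
    · have h2 := (ha i).2
      have h3 : 0 ≤ 1 - ‖a i‖ := by linarith
      have h4 := hρ z hz
      split_ifs
      · rw [norm_zero]
        positivity
      · refine (norm_bl_sub_one_le (ha i).1 h2 (lt_of_le_of_lt h4 hρ1)).trans ?_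
        refine mul_le_mul_of_nonneg_left ?_ h3
        exact div_le_div_of_nonneg_left (by norm_num) h1 (by linarith)
  refine hloc.differentiableOn (Filter.Eventually.of_forall fun t => ?_) isOpen_ball
  refine DifferentiableOn.fun_finsetProd fun i _ => ?_
  exact (hdiff i).const_add _

theorem prod_mul_tl (s : Finset ι) {z : ℂ} (hz : ‖z‖ < 1) :
    ∏' i, bl (a i) z = (∏ i ∈ s, bl (a i) z) * tl a s z := by
  have h1 : HasProd (fun i => if i ∈ s then bl (a i) z else 1) (∏ i ∈ s, bl (a i) z) := by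
    have h0 : ∏ i ∈ s, (if i ∈ s then bl (a i) z else 1) = ∏ i ∈ s, bl (a i) z :=
      Finset.prod_congr rfl (fun i hi => if_pos hi)
    rw [← h0]
    exact hasProd_prod_of_ne_finset_one fun i hi => if_neg hi
  have h2 : Multipliable (fun i => (1 + (if i ∈ s then (0 : ℂ) else bl (a i) z - 1))) :=
    multipliable_one_add_of_summable (summable_tl ha hs s hz)
  have h3 := h1.mul h2.hasProd
  unfold tl
  rw [← h3.tprod_eq]
  refine tprod_congr fun i => ?_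
  split_ifs <;> ring

omit ha hs [DecidableEq ι] in
theorem lim_factor (s : Finset ι) (k : ℕ) :
    Tendsto (fun ρ : ℝ => (ρ ^ k) ^ 2 * ∏ i ∈ s, (1 - 2 * (1 - ρ ^ 2) / (1 - ‖a i‖)))
      (𝓝[<] 1) (𝓝 1) := by
  have h : Tendsto (fun ρ : ℝ => (ρ ^ k) ^ 2 * ∏ i ∈ s, (1 - 2 * (1 - ρ ^ 2) / (1 - ‖a i‖)))
      (𝓝 1) (𝓝 (((1 : ℝ) ^ k) ^ 2 * ∏ i ∈ s, (1 - 2 * (1 - (1 : ℝ) ^ 2) / (1 - ‖a i‖)))) := by
    refine Continuous.tendsto ?_ 1
    fun_prop
  have e : (((1 : ℝ) ^ k) ^ 2 * ∏ i ∈ s, (1 - 2 * (1 - (1 : ℝ) ^ 2) / (1 - ‖a i‖))) = 1 := by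
    simp
  rw [e] at h
  exact h.mono_left nhdsWithin_le_nhds

theorem tl_zero_le {J : ℂ → ℂ} (hJ1 : ∀ z ∈ ball (0 : ℂ) 1, ‖J z‖ ≤ 1) {c : ℂ} (hc : ‖c‖ = 1)
    (k : ℕ) (hf : ∀ z ∈ ball (0 : ℂ) 1, Complex.exp (-((1 + z) / (1 - z))) * J z
      = c * z ^ k * ∏' i, bl (a i) z) (s : Finset ι) : ‖tl a s 0‖ ≤ Real.exp (-1) := by
  set H : ℂ → ℂ := fun z => Complex.exp ((1 + z) / (1 - z)) * tl a s z with hH
  have hHd : DifferentiableOn ℂ H (ball 0 1) := by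
    refine DifferentiableOn.mul ?_ (differentiableOn_tl ha hs s)
    refine DifferentiableOn.cexp (DifferentiableOn.div (by fun_prop) (by fun_prop) ?_)
    intro z hz h
    have h1 : z = 1 := (sub_eq_zero.1 h).symm
    rw [h1] at hz
    simp at hz
  -- the product formula for `J`
  have hprod : ∀ z ∈ ball (0 : ℂ) 1, ‖z‖ ^ k * (∏ i ∈ s, ‖bl (a i) z‖) * ‖H z‖ ≤ 1 := by
    intro z hz
    have hz1 : ‖z‖ < 1 := by simpa using hz
    have h1 := hf z hz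
    rw [prod_mul_tl ha hs s hz1] at h1
    have h2 : J z = c * z ^ k * ((∏ i ∈ s, bl (a i) z) * H z) := by
      have h3 : Complex.exp ((1 + z) / (1 - z)) * (Complex.exp (-((1 + z) / (1 - z))) * J z) = J z := by
        rw [← mul_assoc, ← Complex.exp_add, add_neg_cancel, Complex.exp_zero, one_mul]
      rw [← h3, h1, hH]
      ring
    have h4 := hJ1 z hz
    rw [h2, norm_mul, norm_mul, norm_mul, norm_pow, hc, norm_prod] at h4
    calc ‖z‖ ^ k * (∏ i ∈ s, ‖bl (a i) z‖) * ‖H z‖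
        = 1 * ‖z‖ ^ k * ((∏ i ∈ s, ‖bl (a i) z‖) * ‖H z‖) := by ring
      _ ≤ 1 := h4
  have hev : ∀ᶠ ρ : ℝ in 𝓝[<] 1,
      (ρ ^ k) ^ 2 * (∏ i ∈ s, (1 - 2 * (1 - ρ ^ 2) / (1 - ‖a i‖))) * ‖H 0‖ ^ 2 ≤ 1 := by
    have e1 : ∀ i ∈ s, ∀ᶠ ρ : ℝ in 𝓝[<] 1, 0 < 1 - 2 * (1 - ρ ^ 2) / (1 - ‖a i‖) := by
      intro i _
      have h : Tendsto (fun ρ : ℝ => 1 - 2 * (1 - ρ ^ 2) / (1 - ‖a i‖)) (𝓝 1)
          (𝓝 (1 - 2 * (1 - (1 : ℝ) ^ 2) / (1 - ‖a i‖))) := by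
        refine Continuous.tendsto ?_ 1
        fun_prop
      have e : (1 - 2 * (1 - (1 : ℝ) ^ 2) / (1 - ‖a i‖)) = 1 := by simp
      rw [e] at h
      exact Tendsto.eventually_const_lt zero_lt_one (h.mono_left nhdsWithin_le_nhds)
    have e2 : ∀ᶠ ρ : ℝ in 𝓝[<] 1, ∀ i ∈ s, 0 < 1 - 2 * (1 - ρ ^ 2) / (1 - ‖a i‖) :=
      (Filter.eventually_all_finset s).2 e1
    have e3 : ∀ᶠ ρ : ℝ in 𝓝[<] 1, 0 < ρ :=
      (eventually_gt_nhds zero_lt_one).filter_mono nhdsWithin_le_nhds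
    filter_upwards [e2, e3, self_mem_nhdsWithin] with ρ h2 h3 h4
    have h4' : ρ < 1 := h4
    set m : ℝ := (ρ ^ k) ^ 2 * ∏ i ∈ s, (1 - 2 * (1 - ρ ^ 2) / (1 - ‖a i‖)) with hm
    have hm0 : 0 < m := mul_pos (by positivity) (Finset.prod_pos h2)
    have hsph : ∀ z ∈ frontier (ball (0 : ℂ) ρ), ‖H z‖ ≤ 1 / √m := by
      intro z hz
      rw [frontier_ball _ h3.ne'] at hz
      have hz1 : ‖z‖ = ρ := by simpa using hz
      have hzb : z ∈ ball (0 : ℂ) 1 := by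
        rw [mem_ball_zero_iff, hz1]
        exact h4'
      have h5 := hprod z hzb
      have h6 : √m ≤ ‖z‖ ^ k * ∏ i ∈ s, ‖bl (a i) z‖ := by
        refine Real.sqrt_le_iff.2 ⟨by positivity, ?_⟩
        rw [hm, mul_pow, hz1, ← Finset.prod_pow]
        refine mul_le_mul_of_nonneg_left ?_ (by positivity)
        refine Finset.prod_le_prod (fun i hi => (h2 i hi).le) fun i hi => ?_
        have := norm_bl_sq_ge (z := z) (ha i).1 (ha i).2 (by rw [hz1]; exact h4')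
        rwa [hz1] at this
      rw [le_div_iff₀ (Real.sqrt_pos.2 hm0)]
      calc ‖H z‖ * √m ≤ ‖H z‖ * (‖z‖ ^ k * ∏ i ∈ s, ‖bl (a i) z‖) :=
            mul_le_mul_of_nonneg_left h6 (norm_nonneg _)
        _ ≤ 1 := by linarith
    have hcl : closure (ball (0 : ℂ) ρ) ⊆ ball 0 1 := by
      rw [closure_ball _ h3.ne']
      exact closedBall_subset_ball h4'
    have hmax := Complex.norm_le_of_forall_mem_frontier_norm_le (U := ball (0 : ℂ) ρ) isBounded_ball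
      ((hHd.mono hcl).diffContOnCl) hsph (subset_closure (mem_ball_self h3))
    have h7 : ‖H 0‖ ^ 2 ≤ 1 / m := by
      calc ‖H 0‖ ^ 2 ≤ (1 / √m) ^ 2 := pow_le_pow_left₀ (norm_nonneg _) hmax 2
        _ = 1 / m := by rw [div_pow, Real.sq_sqrt hm0.le, one_pow]
    calc m * ‖H 0‖ ^ 2 ≤ m * (1 / m) := mul_le_mul_of_nonneg_left h7 hm0.le
      _ = 1 := by field_simp
  have hlim := (lim_factor (a := a) s k).mul_const (‖H 0‖ ^ 2)
  have hH0 : 1 * ‖H 0‖ ^ 2 ≤ 1 := le_of_tendsto hlim hev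
  have hH1 : ‖H 0‖ ≤ 1 := by
    nlinarith [norm_nonneg (H 0)]
  have hH2 : ‖H 0‖ = Real.exp 1 * ‖tl a s 0‖ := by
    rw [hH]
    simp only
    rw [norm_mul]
    congr 1
    rw [add_zero, sub_zero, div_one, Complex.norm_exp, Complex.one_re]
  rw [hH2] at hH1
  have hexp : Real.exp (-1) * Real.exp 1 = 1 := by rw [← Real.exp_add]; simp
  calc ‖tl a s 0‖ = Real.exp (-1) * (Real.exp 1 * ‖tl a s 0‖) := by rw [← mul_assoc, hexp, one_mul]
    _ ≤ Real.exp (-1) * 1 := mul_le_mul_of_nonneg_left hH1 (Real.exp_nonneg _)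
    _ = Real.exp (-1) := mul_one _

end


/-- An analytic function in the unit disc which is the product of the atomic singular inner
function and a function bounded by one is not a Blaschke product. -/
theorem not_blaschke {f J : ℂ → ℂ} (hJ1 : ∀ z ∈ ball (0 : ℂ) 1, ‖J z‖ ≤ 1)
    (hf : ∀ z ∈ ball (0 : ℂ) 1, f z = Complex.exp (-((1 + z) / (1 - z))) * J z) :
    ¬ Pool.Agent.H36.Vin.IsBlaschke f := by
  classical
  rintro ⟨c, k, ι, a, hc, ha, hs, hB⟩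
  have hB' : ∀ z ∈ ball (0 : ℂ) 1, Complex.exp (-((1 + z) / (1 - z))) * J z
      = c * z ^ k * ∏' i, bl (a i) z := by
    intro z hz
    obtain ⟨B, hB1, hB2⟩ := hB z hz
    rw [← hf z hz, hB2, ← hB1.tprod_eq]
    rfl
  have htl := tl_zero_le ha hs hJ1 hc k hB'
  have h0 : (0 : ℂ) ∈ ball (0 : ℂ) 1 := mem_ball_self one_pos
  set P : ℂ := ∏' i, bl (a i) 0 with hP
  have hPne : P ≠ 0 := by
    have h1 : P = ∏' i, (1 + (bl (a i) 0 - 1)) := by
      rw [hP]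
      exact tprod_congr fun i => by ring
    rw [h1]
    refine tprod_one_add_ne_zero_of_summable (fun i => ?_) ?_
    · rw [add_sub_cancel, bl_zero (ha i).1]
      have := (ha i).1
      simpa using this
    · have := summable_tl ha hs ∅ (z := 0) (by simp)
      simpa using this
  have hPs : ∀ s : Finset ι, ‖P‖ ≤ (∏ i ∈ s, ‖a i‖) * Real.exp (-1) := by
    intro s
    rw [hP, prod_mul_tl ha hs s (by simp : ‖(0 : ℂ)‖ < 1), norm_mul, norm_prod]
    have e : ∏ i ∈ s, ‖bl (a i) 0‖ = ∏ i ∈ s, ‖a i‖ :=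
      Finset.prod_congr rfl fun i _ => by rw [bl_zero (ha i).1, Complex.norm_real, norm_norm]
    rw [e]
    exact mul_le_mul_of_nonneg_left (htl s) (Finset.prod_nonneg fun _ _ => norm_nonneg _)
  have hmul : Multipliable (fun i => bl (a i) 0) := by
    have := summable_tl ha hs ∅ (z := 0) (by simp)
    have h2 : Multipliable (fun i => (1 + (if i ∈ (∅ : Finset ι) then (0 : ℂ) else bl (a i) 0 - 1))) :=
      multipliable_one_add_of_summable this
    simpa using h2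
  have hlim : Tendsto (fun s : Finset ι => (∏ i ∈ s, ‖a i‖) * Real.exp (-1)) atTop
      (𝓝 (‖P‖ * Real.exp (-1))) := by
    refine Tendsto.mul_const _ ?_
    have h1 : Tendsto (fun s : Finset ι => ∏ i ∈ s, bl (a i) 0) atTop (𝓝 P) := hmul.hasProd
    have h2 := h1.norm
    refine h2.congr fun s => ?_
    rw [norm_prod]
    exact Finset.prod_congr rfl fun i _ => by rw [bl_zero (ha i).1, Complex.norm_real, norm_norm]
  have h3 : ‖P‖ ≤ ‖P‖ * Real.exp (-1) := ge_of_tendsto' hlim hPs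
  have h4 : 0 < ‖P‖ := norm_pos_iff.2 hPne
  have h5 : Real.exp (-1) < 1 := by
    rw [Real.exp_lt_one_iff]
    norm_num
  nlinarith

end Pool.Agent.H40.Vin
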