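import Mathlib
import Pool.Agent.H40.Vin.Cotlar
import Pool.Agent.H47.Vin.Comb

/-!
# Sharp frequency cut-offs on `l^4(Z; l^2)`
-/

namespace Pool.Agent.H40.Vin

open scoped BigOperators ComplexConjugate
open Pool.Agent.H47.Vin Filter

/-- modulation: coefficients multiplied by `exp (i n θ)` -/
noncomputable def tx (θ : ℝ) (f : W) : W :=
  mkW (fun n => co f n * Complex.exp (((n * θ : ℝ) : ℂ) * Complex.I)) (by
    refine (summable_co f).congr fun n => ?_
    rw [norm_mul, Complex.norm_exp_ofReal_mul_I, mul_one])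

theorem co_tx (θ : ℝ) (f : W) (n : ℤ) :
    co (tx θ f) n = co f n * Complex.exp (((n * θ : ℝ) : ℂ) * Complex.I) := rfl

theorem psq_tx (θ : ℝ) (f : W) : psq (tx θ f) = psq f := ext_co fun n => by
  rw [co_psq, co_psq, co_tx, norm_mul, Complex.norm_exp_ofReal_mul_I, mul_one]

theorem cc_eq (T : ℝ) (n : ℤ) :
    cc T n = Real.sin (n * T) / Real.pi * hk n + if n = 0 then T / Real.pi else 0 := by
  unfold cc hk
  split_ifs with h
  · subst h
    simp
  · have := Real.pi_ne_zero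
    have h2 : (n : ℝ) ≠ 0 := by exact_mod_cast h
    field_simp
    ring

theorem abs_cc_le' {T : ℝ} (h0 : 0 ≤ T) (h1 : T ≤ Real.pi) (n : ℤ) : ‖(cc T n : ℂ)‖ ≤ 2 := by
  rw [Complex.norm_real, Real.norm_eq_abs, cc_eq]
  have hpi := Real.pi_pos
  have hpi3 := Real.pi_gt_three
  have e1 : |Real.sin (n * T) / Real.pi * hk n| ≤ 1 := by
    rw [abs_mul, abs_div, abs_of_pos hpi]
    have h2 : |Real.sin (n * T)| / Real.pi ≤ 1 := by
      rw [div_le_one hpi]
      exact (Real.abs_sin_le_one _).trans (by linarith)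
    exact mul_le_one₀ h2 (abs_nonneg _) (abs_hk_le n)
  have e2 : |if n = 0 then T / Real.pi else 0| ≤ 1 := by
    split_ifs
    · rw [abs_of_nonneg (by positivity), div_le_one hpi]
      exact h1
    · simp
  linarith [abs_add_le (Real.sin (n * T) / Real.pi * hk n) (if n = 0 then T / Real.pi else 0)]

/-- the sharp cut-off to frequencies `|t| < T` -/
noncomputable def CT (T : ℝ) (f : W) (n : ℤ) : ℂ := ∑' m, co f m * (cc T (n - m) : ℂ)

theorem hasSum_CT {T : ℝ} (h0 : 0 ≤ T) (h1 : T ≤ Real.pi) (f : W) (n : ℤ) :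
    HasSum (fun m => co f m * (cc T (n - m) : ℂ)) (CT T f n) :=
  (summable_bdd f (fun m => abs_cc_le' h0 h1 (n - m))).of_norm.hasSum

theorem CT_eq {T : ℝ} (f : W) (n : ℤ) : CT T f n =
    (1 / (2 * Real.pi * Complex.I)) * (Complex.exp (((n * T : ℝ) : ℂ) * Complex.I) * HT (tx (-T) f) n
      - Complex.exp (((n * (-T) : ℝ) : ℂ) * Complex.I) * HT (tx T f) n)
      + (T / Real.pi : ℝ) * co f n := by
  have h1 := (hasSum_HT (tx (-T) f) n).mul_left (Complex.exp (((n * T : ℝ) : ℂ) * Complex.I))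
  have h2 := (hasSum_HT (tx T f) n).mul_left (Complex.exp (((n * (-T) : ℝ) : ℂ) * Complex.I))
  have h3 := (h1.sub h2).mul_left (1 / (2 * Real.pi * Complex.I))
  have h4 : HasSum (fun m => if m = n then ((T / Real.pi : ℝ) : ℂ) * co f n else 0)
      (((T / Real.pi : ℝ) : ℂ) * co f n) := hasSum_ite_eq n _
  rw [← (h3.add h4).tsum_eq]
  unfold CT
  refine tsum_congr fun m => ?_
  have hpi : (Real.pi : ℂ) ≠ 0 := by exact_mod_cast Real.pi_ne_zero
  have hs : (Real.sin (((n - m : ℤ) : ℝ) * T) : ℂ) = (Complex.exp (((n * T : ℝ) : ℂ) * Complex.I)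
      * Complex.exp (((m * (-T) : ℝ) : ℂ) * Complex.I)
      - Complex.exp (((n * (-T) : ℝ) : ℂ) * Complex.I) * Complex.exp (((m * T : ℝ) : ℂ) * Complex.I))
      / (2 * Complex.I) := by
    rw [← Complex.exp_add, ← Complex.exp_add, Complex.ofReal_sin, Complex.sin, eq_div_iff (by simp)]
    have hI : Complex.I * Complex.I = -1 := Complex.I_mul_I
    have e1 : (((n - m : ℤ) : ℝ) * T : ℝ) * Complex.I
        = ((n * T : ℝ) : ℂ) * Complex.I + ((m * (-T) : ℝ) : ℂ) * Complex.I := by push_cast; ring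
    have e2 : -((((n - m : ℤ) : ℝ) * T : ℝ) : ℂ) * Complex.I
        = ((n * (-T) : ℝ) : ℂ) * Complex.I + ((m * T : ℝ) : ℂ) * Complex.I := by push_cast; ring
    rw [e1, e2]
    linear_combination (Complex.exp (((n * (-T) : ℝ) : ℂ) * Complex.I + ((m * T : ℝ) : ℂ) * Complex.I)
      - Complex.exp (((n * T : ℝ) : ℂ) * Complex.I + ((m * (-T) : ℝ) : ℂ) * Complex.I)) * hI
  rw [cc_eq, co_tx, co_tx, Complex.ofReal_add, Complex.ofReal_mul, Complex.ofReal_div, hs,
    ofReal_ite']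
  have hI0 : Complex.I ≠ 0 := Complex.I_ne_zero
  by_cases h : m = n
  · subst h
    simp
    ring
  · have h' : ¬ n - m = 0 := fun h'' => h (by omega)
    simp only [h, h', if_false]
    field_simp
    ring

theorem norm_CT_sq_le {T : ℝ} (h0 : 0 ≤ T) (h1 : T ≤ Real.pi) (f : W) (n : ℤ) :
    ‖CT T f n‖ ^ 2 ≤ 3 * ((1 / (4 * Real.pi ^ 2)) * (‖HT (tx (-T) f) n‖ ^ 2 + ‖HT (tx T f) n‖ ^ 2)
      + ‖co f n‖ ^ 2) := by
  have hpi := Real.pi_pos
  have h2 : ‖CT T f n‖ ≤ (1 / (2 * Real.pi)) * (‖HT (tx (-T) f) n‖ + ‖HT (tx T f) n‖)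
      + ‖co f n‖ := by
    rw [CT_eq]
    refine (norm_add_le _ _).trans (add_le_add ?_ ?_)
    · rw [norm_mul]
      have : ‖(1 / (2 * Real.pi * Complex.I) : ℂ)‖ = 1 / (2 * Real.pi) := by
        rw [norm_div, norm_mul, norm_mul, Complex.norm_I, Complex.norm_real,
          Real.norm_of_nonneg hpi.le]
        simp
      rw [this]
      refine mul_le_mul_of_nonneg_left ?_ (by positivity)
      refine (norm_sub_le _ _).trans ?_
      rw [norm_mul, norm_mul, Complex.norm_exp_ofReal_mul_I, Complex.norm_exp_ofReal_mul_I,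
        one_mul, one_mul]
    · rw [norm_mul, Complex.norm_real, Real.norm_of_nonneg (by positivity)]
      refine mul_le_of_le_one_left (norm_nonneg _) ?_
      rw [div_le_one hpi]
      exact h1
  set A := ‖HT (tx (-T) f) n‖
  set B := ‖HT (tx T f) n‖
  set C := ‖co f n‖
  have hA : 0 ≤ A := norm_nonneg _
  have hB : 0 ≤ B := norm_nonneg _
  have hC : 0 ≤ C := norm_nonneg _
  have h3 : ‖CT T f n‖ ^ 2 ≤ ((1 / (2 * Real.pi)) * (A + B) + C) ^ 2 :=
    pow_le_pow_left₀ (norm_nonneg _) h2 2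
  refine h3.trans ?_
  set r := 1 / (2 * Real.pi) with hr
  have hr2 : 1 / (4 * Real.pi ^ 2) = r ^ 2 := by
    rw [hr]
    field_simp
    ring
  rw [hr2]
  nlinarith [sq_nonneg (r * A - r * B), sq_nonneg (r * A - C), sq_nonneg (r * B - C)]

theorem co_phi_mul {p m : ℕ} (h1 : 1 ≤ p) (hpm : p ≤ m) (e : W) (n : ℤ) :
    co (phi p m * e) n = CT (Tp p) e n - CT (Tp p) (mono (2 ^ m) * e) n := by
  have h0 := (Tp_pos p).le
  have hpi := Tp_le_pi h1
  have e1 := hasSum_CT h0 hpi e n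
  have e2 := hasSum_CT h0 hpi (mono (2 ^ m) * e) n
  have e3 := (Equiv.addRight ((2 : ℤ) ^ m)).hasSum_iff.2 e2
  rw [mul_comm, co_mul, ← (e1.sub e3).tsum_eq]
  refine tsum_congr fun k => ?_
  simp only [Function.comp_apply, Equiv.coe_addRight]
  rw [co_phi hpm, co_mono_mul, add_sub_cancel_right, ← mul_sub, ← Complex.ofReal_sub,
    show n - (k + 2 ^ m) = n - k - 2 ^ m by ring]

/-- The vector valued estimate for the cut symbols `phi`. -/
theorem cut {ι : Type*} (s : Finset ι) (p m : ι → ℕ) (hp : ∀ k ∈ s, 1 ≤ p k)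
    (hpm : ∀ k ∈ s, p k ≤ m k) (e : ι → W) :
    n2 (∑ k ∈ s, psq (phi (p k) (m k) * e k)) ≤
      24 * (n2 (∑ k ∈ s, psq (e k)) + n2 (∑ k ∈ s, psq (mono (2 ^ m k) * e k))) := by
  have hpi := Real.pi_pos
  set c : ℝ := 1 / (4 * Real.pi ^ 2) with hc
  have hc0 : 0 ≤ c := by positivity
  set Q : (ι → W) → W := fun g => ((c : ℝ) : ℂ) • (∑ k ∈ s, psH (tx (-Tp (p k)) (g k))
    + ∑ k ∈ s, psH (tx (Tp (p k)) (g k))) + ∑ k ∈ s, psq (g k) with hQ
  have hsq : (√2) ^ 2 = 2 := Real.sq_sqrt (by norm_num)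
  have h20 : 0 ≤ √2 := Real.sqrt_nonneg _
  have hQ2 : ∀ g : ι → W, n2 (Q g) ≤ 4 * n2 (∑ k ∈ s, psq (g k)) := by
    intro g
    have h1 := cotlar s (fun k => tx (-Tp (p k)) (g k))
    have h2 := cotlar s (fun k => tx (Tp (p k)) (g k))
    simp only [psq_tx] at h1 h2
    set b := n2 (∑ k ∈ s, psq (g k))
    have hb : 0 ≤ b := n2_nonneg _
    calc n2 (Q g) ≤ n2 (((c : ℝ) : ℂ) • (∑ k ∈ s, psH (tx (-Tp (p k)) (g k))
          + ∑ k ∈ s, psH (tx (Tp (p k)) (g k)))) + b := n2_add_le _ _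
      _ ≤ c * ((1 + √2) ^ 2 * Real.pi ^ 2 * b + (1 + √2) ^ 2 * Real.pi ^ 2 * b) + b := by
          rw [n2_smul_real hc0]
          gcongr
          exact (n2_add_le _ _).trans (add_le_add h1 h2)
      _ = ((1 + √2) ^ 2 / 2 + 1) * b := by
          rw [hc]
          field_simp
          ring
      _ ≤ 4 * b := by
          refine mul_le_mul_of_nonneg_right ?_ hb
          have : √2 ≤ 3 / 2 := by
            rw [Real.sqrt_le_left (by norm_num)]
            norm_num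
          nlinarith
  have hdom : Dom (∑ k ∈ s, psq (phi (p k) (m k) * e k))
      (((6 : ℝ) : ℂ) • (Q e + Q (fun k => mono (2 ^ m k) * e k))) := by
    rw [dom_iff]
    intro n
    have hQn : ∀ g : ι → W, co (Q g) n = ((c * (∑ k ∈ s, ‖HT (tx (-Tp (p k)) (g k)) n‖ ^ 2
        + ∑ k ∈ s, ‖HT (tx (Tp (p k)) (g k)) n‖ ^ 2) + ∑ k ∈ s, ‖co (g k) n‖ ^ 2 : ℝ) : ℂ) := by
      intro g
      rw [hQ]
      simp only
      rw [co_add, co_smul, co_add, co_sum_psH, co_sum_psH, co_sum_psq]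
      push_cast
      ring
    rw [co_smul, co_add, hQn, hQn, ← Complex.ofReal_add, ← Complex.ofReal_mul, co_sum_psq]
    refine ⟨?_, by rw [Complex.ofReal_im, Complex.ofReal_im]⟩
    rw [Complex.ofReal_re, Complex.ofReal_re]
    have hk1 : ∀ k ∈ s, ‖co (phi (p k) (m k) * e k) n‖ ^ 2 ≤
        6 * ((c * (‖HT (tx (-Tp (p k)) (e k)) n‖ ^ 2 + ‖HT (tx (Tp (p k)) (e k)) n‖ ^ 2)
          + ‖co (e k) n‖ ^ 2)
        + (c * (‖HT (tx (-Tp (p k)) (mono (2 ^ m k) * e k)) n‖ ^ 2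
          + ‖HT (tx (Tp (p k)) (mono (2 ^ m k) * e k)) n‖ ^ 2)
          + ‖co (mono (2 ^ m k) * e k) n‖ ^ 2)) := by
      intro k hk
      have h0 := (Tp_pos (p k)).le
      have hpi' := Tp_le_pi (hp k hk)
      have e1 := norm_CT_sq_le h0 hpi' (e k) n
      have e2 := norm_CT_sq_le h0 hpi' (mono (2 ^ m k) * e k) n
      rw [co_phi_mul (hp k hk) (hpm k hk)]
      have e3 := norm_sub_le (CT (Tp (p k)) (e k) n) (CT (Tp (p k)) (mono (2 ^ m k) * e k) n)
      have e4 : ‖CT (Tp (p k)) (e k) n - CT (Tp (p k)) (mono (2 ^ m k) * e k) n‖ ^ 2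
          ≤ (‖CT (Tp (p k)) (e k) n‖ + ‖CT (Tp (p k)) (mono (2 ^ m k) * e k) n‖) ^ 2 :=
        pow_le_pow_left₀ (norm_nonneg _) e3 2
      nlinarith [sq_nonneg (‖CT (Tp (p k)) (e k) n‖ - ‖CT (Tp (p k)) (mono (2 ^ m k) * e k) n‖)]
    refine (Finset.sum_le_sum hk1).trans (le_of_eq ?_)
    rw [← Finset.mul_sum]
    simp only [Finset.sum_add_distrib, ← Finset.mul_sum]
  refine (n2_le_of_dom (Pos.sum fun k _ => pos_psq _) hdom).trans ?_
  rw [n2_smul_real (by norm_num)]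
  have h1 := hQ2 e
  have h2 := hQ2 (fun k => mono (2 ^ m k) * e k)
  have h3 := n2_add_le (Q e) (Q (fun k => mono (2 ^ m k) * e k))
  linarith

end Pool.Agent.H40.Vin
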